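import Pool.Agent.H21.GW.Rad2

/-!
# No perfect `2`-spanning sets of size at least three: the classes modulo `15`
-/

set_option autoImplicit false
set_option linter.unusedSectionVars false

open Finset
open scoped Classical

namespace Pool.Agent.H21.GW

noncomputable section

variable {G : Type} [AddCommGroup G] [Fintype G] {T : Finset G} {n : ℕ}

lemma int_prod_pos (x : ℤ) (a : ℤ) : 0 ≤ (x - a) * (x - (a + 1)) := by
  rcases le_or_gt x a with h | h
  · nlinarith
  · have : a + 1 ≤ x := h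
    nlinarith

/-- `k ≤ 2 n + 1` -/
lemma PT.k_le (h : PT T n) : cc T 1 4 0 ≤ 2 * n + 1 := by
  have hc : (T.card : ℤ) = 2 * n + 1 := by exact_mod_cast h.card
  unfold cc
  rw [Finset.sum_comm, ← hc, Finset.card_eq_sum_ones]
  push_cast
  refine Finset.sum_le_sum fun y _ => ?_
  by_cases hx : -(4 • y) ∈ T
  · rw [Finset.sum_eq_single (-(4 • y))]
    · rw [if_pos (by simp)]
    · intro b _ hb
      rw [if_neg]
      rw [one_smul]
      intro h0
      exact hb (eq_neg_of_add_eq_zero_left h0)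
    · intro hc; exact absurd hx hc
  · rw [Finset.sum_eq_zero]
    · norm_num
    · intro x hxT
      rw [if_neg]
      rw [one_smul]
      intro h0
      apply hx
      rw [← eq_neg_of_add_eq_zero_left h0]
      exact hxT

/-- class `1 mod 3`, `1 mod 5` -/
lemma PT.case11 (h : PT T n) (h3 : (3 : ℤ) ∣ n - 1) (h5 : (5 : ℤ) ∣ n - 1) (hn : 10 ≤ n) :
    False := by
  have := h.comb 0 (-1) 0 3 3 (-9) 3 3 3 0 ?_
  · have hn' : (10 : ℤ) ≤ n := by exact_mod_cast hn
    nlinarith
  · intro g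
    obtain ⟨_, _, t5, hc, hd, h0, _⟩ := h.vals g
    by_cases hg : g = 0
    · obtain ⟨a1, a3, a5, ac⟩ := h0 hg
      rw [if_pos hg, a1, a3, ac]
      linarith
    · rw [if_neg hg]
      have hmod := h.mod5' g 1 h5
      rcases h.struct1 h3 g hg with ⟨b1, b2, b3⟩ | ⟨b1, b2, b3⟩ | ⟨b1, b2, b3 | b3⟩ <;>
        rw [b1, b2, b3] <;> rw [b1, b3] at hmod <;> try linarith
      have : 3 ≤ cc T 1 4 g + tt T 5 g := by omega
      linarith

/-- class `1 mod 3`, `4 mod 5` -/
lemma PT.case14 (h : PT T n) (h3 : (3 : ℤ) ∣ n - 1) (h5 : (5 : ℤ) ∣ n - 4) (hn : 3 ≤ n) :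
    False := by
  have := h.comb 1 0 0 (-5) (-2) 6 4 2 4 (-8) ?_
  · have hn' : (3 : ℤ) ≤ n := by exact_mod_cast hn
    have hk := h.k_le
    nlinarith
  · intro g
    obtain ⟨_, _, t5, hc, hd, h0, _⟩ := h.vals g
    by_cases hg : g = 0
    · obtain ⟨a1, a3, a5, ac⟩ := h0 hg
      rw [if_pos hg, a1, a3, ac]
      have := int_prod_pos (cc T 1 4 g) 2
      linarith
    · rw [if_neg hg]
      have hmod := h.mod5' g 4 h5
      have e2 := int_prod_pos (cc T 1 4 g) 2
      rcases h.struct1 h3 g hg with ⟨b1, b2, b3⟩ | ⟨b1, b2, b3⟩ | ⟨b1, b2, b3 | b3⟩ <;>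
        rw [b1, b2, b3] <;> rw [b1, b3] at hmod
      · linarith
      · rcases eq_or_lt_of_le t5 with h' | h'
        · rw [← h'] at hmod ⊢
          obtain ⟨q, hq⟩ : (5 : ℤ) ∣ cc T 1 4 g - 1 := by omega
          have hq' : cc T 1 4 g = 5 * q + 1 := by omega
          rw [hq'] at hd ⊢
          have hq0 : 0 ≤ q := by omega
          rcases hq0.eq_or_lt with h'' | h''
          · rw [← h'']; norm_num
          · nlinarith
        · have : 1 ≤ tt T 5 g := h'
          linarith
      · linarith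
      · rcases eq_or_lt_of_le t5 with h' | h'
        · rw [← h'] at hmod ⊢
          obtain ⟨q, hq⟩ : (5 : ℤ) ∣ cc T 1 4 g := by omega
          rw [hq] at hd ⊢
          have hq0 : 0 ≤ q := by omega
          rcases hq0.eq_or_lt with h'' | h''
          · rw [← h'']; norm_num
          · nlinarith
        · rcases eq_or_lt_of_le (show 1 ≤ tt T 5 g from h') with h'' | h''
          · rw [← h''] at hmod ⊢
            have e3 := int_prod_pos (cc T 1 4 g) 1
            obtain ⟨q, hq⟩ : (5 : ℤ) ∣ cc T 1 4 g - 4 := by omega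
            have hq' : cc T 1 4 g = 5 * q + 4 := by omega
            rw [hq'] at hd ⊢
            have hq0 : 0 ≤ q := by omega
            rcases hq0.eq_or_lt with h4 | h4
            · rw [← h4]; norm_num
            · nlinarith
          · have : 2 ≤ tt T 5 g := h''
            linarith

/-- class `1 mod 3`, `2 mod 5` -/
lemma PT.case12 (h : PT T n) (h3 : (3 : ℤ) ∣ n - 1) (h5 : (5 : ℤ) ∣ n - 2) (hn : 6 ≤ n) :
    False := by
  have := h.comb 3 (-2) 0 (-15) 6 0 18 18 18 (-36) ?_
  · have hn' : (6 : ℤ) ≤ n := by exact_mod_cast hn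
    have hk := h.k_le
    nlinarith
  · intro g
    obtain ⟨_, _, t5, hc, hd, h0, _⟩ := h.vals g
    by_cases hg : g = 0
    · obtain ⟨a1, a3, a5, ac⟩ := h0 hg
      rw [if_pos hg, a1, a3, ac]
      have := int_prod_pos (cc T 1 4 g) 2
      have := int_prod_pos (cc T 1 4 g) 3
      nlinarith
    · rw [if_neg hg]
      have hmod := h.mod5' g 2 h5
      have e2 := int_prod_pos (cc T 1 4 g) 2
      have e3 := int_prod_pos (cc T 1 4 g) 3
      rcases h.struct1 h3 g hg with ⟨b1, b2, b3⟩ | ⟨b1, b2, b3⟩ | ⟨b1, b2, b3 | b3⟩ <;>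
        rw [b1, b2, b3] <;> rw [b1, b3] at hmod
      · nlinarith
      · nlinarith
      · rcases eq_or_lt_of_le t5 with h' | h'
        · rw [← h'] at hmod ⊢
          obtain ⟨q, hq⟩ : (5 : ℤ) ∣ cc T 1 4 g := by omega
          rw [hq] at hd ⊢
          have hq0 : 0 ≤ q := by omega
          rcases hq0.eq_or_lt with h'' | h''
          · rw [← h'']; norm_num
          · nlinarith
        · have : 1 ≤ tt T 5 g := h'
          nlinarith
      · rcases eq_or_lt_of_le t5 with h' | h'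
        · rw [← h'] at hmod ⊢
          obtain ⟨q, hq⟩ : (5 : ℤ) ∣ cc T 1 4 g - 1 := by omega
          have hq' : cc T 1 4 g = 5 * q + 1 := by omega
          rw [hq'] at hd ⊢
          have hq0 : 0 ≤ q := by omega
          rcases hq0.eq_or_lt with h'' | h''
          · rw [← h'']; norm_num
          · nlinarith
        · have : 1 ≤ tt T 5 g := h'
          nlinarith

/-- class `1 mod 3`, `3 mod 5` -/
lemma PT.case13 (h : PT T n) (h3 : (3 : ℤ) ∣ n - 1) (h5 : (5 : ℤ) ∣ n - 3) (hn : 4 ≤ n) :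
    False := by
  have := h.comb 3 2 0 (-21) (-6) 18 18 18 18 (-36) ?_
  · have hn' : (4 : ℤ) ≤ n := by exact_mod_cast hn
    have hk := h.k_le
    nlinarith
  · intro g
    obtain ⟨_, _, t5, hc, hd, h0, _⟩ := h.vals g
    by_cases hg : g = 0
    · obtain ⟨a1, a3, a5, ac⟩ := h0 hg
      rw [if_pos hg, a1, a3, ac]
      have := int_prod_pos (cc T 1 4 g) 2
      have := int_prod_pos (cc T 1 4 g) 3
      nlinarith
    · rw [if_neg hg]
      have hmod := h.mod5' g 3 h5
      have e2 := int_prod_pos (cc T 1 4 g) 2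
      have e3 := int_prod_pos (cc T 1 4 g) 3
      rcases h.struct1 h3 g hg with ⟨b1, b2, b3⟩ | ⟨b1, b2, b3⟩ | ⟨b1, b2, b3 | b3⟩ <;>
        rw [b1, b2, b3] <;> rw [b1, b3] at hmod
      · nlinarith
      · nlinarith
      · rcases eq_or_lt_of_le t5 with h' | h'
        · rw [← h'] at hmod ⊢
          obtain ⟨q, hq⟩ : (5 : ℤ) ∣ cc T 1 4 g - 1 := by omega
          have hq' : cc T 1 4 g = 5 * q + 1 := by omega
          rw [hq'] at hd ⊢
          have hq0 : 0 ≤ q := by omega
          rcases hq0.eq_or_lt with h'' | h''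
          · rw [← h'']; norm_num
          · nlinarith
        · have : 1 ≤ tt T 5 g := h'
          nlinarith
      · rcases eq_or_lt_of_le t5 with h' | h'
        · rw [← h'] at hmod ⊢
          obtain ⟨q, hq⟩ : (5 : ℤ) ∣ cc T 1 4 g := by omega
          rw [hq] at hd ⊢
          have hq0 : 0 ≤ q := by omega
          rcases hq0.eq_or_lt with h'' | h''
          · rw [← h'']; norm_num
          · nlinarith
        · have : 1 ≤ tt T 5 g := h'
          nlinarith

/-- class `2 mod 3`, `1, 2, 4 mod 5` -/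
lemma PT.case2 (h : PT T n) (h3 : (3 : ℤ) ∣ n - 2)
    (h5 : (5 : ℤ) ∣ n - 1 ∨ (5 : ℤ) ∣ n - 2 ∨ (5 : ℤ) ∣ n - 4) (hn : 11 ≤ n) :
    False := by
  have := h.comb 0 1 0 (-1) (-3) 3 3 6 3 (-12) ?_
  · have hn' : (11 : ℤ) ≤ n := by exact_mod_cast hn
    nlinarith
  · intro g
    obtain ⟨_, _, t5, hc, hd, h0, _⟩ := h.vals g
    by_cases hg : g = 0
    · obtain ⟨a1, a3, a5, ac⟩ := h0 hg
      rw [if_pos hg, a1, a3, ac]
      linarith
    · rw [if_neg hg]
      rcases h.struct2 h3 g hg with ⟨b1, b2, b3⟩ | ⟨b1, b2, b3⟩ | ⟨b1, b2, b3 | b3⟩ <;>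
        rw [b1, b2, b3] <;> try linarith
      have : 3 ≤ cc T 1 4 g + tt T 5 g := by
        rcases h5 with h5 | h5 | h5
        · have hmod := h.mod5' g 1 h5
          rw [b1, b3] at hmod
          omega
        · have hmod := h.mod5' g 2 h5
          rw [b1, b3] at hmod
          omega
        · have hmod := h.mod5' g 4 h5
          rw [b1, b3] at hmod
          omega
      linarith

/-- class `2 mod 3`, `3 mod 5` -/
lemma PT.case23 (h : PT T n) (h3 : (3 : ℤ) ∣ n - 2) (h5 : (5 : ℤ) ∣ n - 3) (hn : 4 ≤ n) :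
    False := by
  have := h.comb 0 (-1) 0 4 4 (-16) 8 4 3 (-3) ?_
  · have hn' : (4 : ℤ) ≤ n := by exact_mod_cast hn
    nlinarith
  · intro g
    obtain ⟨_, _, t5, hc, hd, h0, _⟩ := h.vals g
    by_cases hg : g = 0
    · obtain ⟨a1, a3, a5, ac⟩ := h0 hg
      rw [if_pos hg, a1, a3, ac]
      linarith
    · rw [if_neg hg]
      have hmod := h.mod5' g 3 h5
      rcases h.struct2 h3 g hg with ⟨b1, b2, b3⟩ | ⟨b1, b2, b3⟩ | ⟨b1, b2, b3 | b3⟩ <;>
        rw [b1, b2, b3] <;> rw [b1, b3] at hmod <;> try linarith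
      have : 4 ≤ cc T 1 4 g + tt T 5 g := by omega
      linarith

end

end Pool.Agent.H21.GW
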