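import Pool.Agent.H21.GW.Cases

/-!
# No perfect `2`-spanning sets of size at least three: sizes divisible by `3` or `5`
-/

set_option autoImplicit false
set_option linter.unusedSectionVars false

open Finset
open scoped Classical

namespace Pool.Agent.H21.GW

noncomputable section

variable {G : Type} [AddCommGroup G] [Fintype G] {T : Finset G} {n : ℕ}

lemma PT.tt_neg (h : PT T n) (k : ℕ) (g : G) : tt T k (-g) = tt T k g := by
  unfold tt
  refine Finset.sum_nbij' (fun x => -x) (fun x => -x) (fun x hx => h.neg x hx)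
    (fun x hx => h.neg x hx) (fun x _ => neg_neg x) (fun x _ => neg_neg x) ?_
  intro x _
  have : (k • x = -g) ↔ (k • (-x) = g) := by
    rw [smul_neg, neg_eq_iff_eq_neg]
  by_cases hc : k • x = -g
  · rw [if_pos hc, if_pos (this.1 hc)]
  · rw [if_neg hc, if_neg fun hc' => hc (this.2 hc')]

/-- a symmetric nonnegative function -/
lemma PT.sym_bound (h : PT T n) (f : G → ℤ) (hf : ∀ g, 0 ≤ f g) (hs : ∀ g, f (-g) = f g) (g : G)
    (hg : g ≠ 0) : 2 * f g + f 0 ≤ ∑ g, f g := by
  have hgn : g ≠ -g := by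
    intro hc
    apply hg
    apply h.inj2
    show 2 • g = 2 • (0 : G)
    rw [two_nsmul, smul_zero]
    nth_rewrite 2 [hc]
    simp
  have h1 : ∑ x ∈ ({g, -g, 0} : Finset G), f x ≤ ∑ x, f x :=
    Finset.sum_le_sum_of_subset_of_nonneg (Finset.subset_univ _) fun x _ _ => hf x
  rw [Finset.sum_insert, Finset.sum_pair, hs] at h1
  · linarith
  · simpa using hg
  · rw [Finset.mem_insert, Finset.mem_singleton]
    rintro (hc | hc)
    · exact hgn hc
    · exact hg hc

/-- class `0 mod 3`: the size is at most three -/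
lemma PT.case0 (h : PT T n) (h3 : (3 : ℤ) ∣ n) : n ≤ 3 ∧ (n = 3 → ∀ g, g ≠ 0 →
    (tt T 3 g = 0 ∧ (cc T 1 2 g = 2 ∨ cc T 1 2 g = 5)) ∨ (tt T 3 g = 1 ∧ cc T 1 2 g = 1)) := by
  have h3' : (3 : ℤ) ∣ n - 0 := by simpa using h3
  have hu : ∀ g, 0 ≤ cc T 1 2 g - 2 + tt T 3 g := by
    intro g
    obtain ⟨h1, h3, h5, hc, hd, h0, hm⟩ := h.vals g
    have hmod := h.mod3' g 0 h3'
    rcases h3 with h3 | h3 <;> rw [h3] at hmod ⊢ <;> omega
  have hsum : ∑ g, (cc T 1 2 g - 2 + tt T 3 g) = 2 * n := by
    have hc : (T.card : ℤ) = 2 * n + 1 := by exact_mod_cast h.card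
    have hN : (Fintype.card G : ℤ) = 2 * (n : ℤ) ^ 2 + 2 * n + 1 := by exact_mod_cast h.card_G
    rw [Finset.sum_add_distrib, Finset.sum_sub_distrib, sum_cc, sum_tt, hc, Finset.sum_const,
      Finset.card_univ, nsmul_eq_mul, hN]
    ring
  have hle : ∀ g, cc T 1 2 g - 2 + tt T 3 g ≤ n := by
    intro g
    by_cases hg : g = 0
    · obtain ⟨h1, h3, h5, hc, hd, h0, hm⟩ := h.vals g
      obtain ⟨a1, a3, a5, ac⟩ := h0 hg
      rw [a3, ac]
      have : (0 : ℤ) ≤ n := by positivity
      linarith
    · have := h.sym_bound (fun g => cc T 1 2 g - 2 + tt T 3 g) hu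
        (fun g => by rw [h.cc_neg, h.tt_neg]) g hg
      rw [hsum] at this
      have h0 := hu 0
      linarith
  have hpos : ∀ g, 0 ≤ (0 : ℤ) * (cc T 1 4 g * cc T 1 4 g) + 0 * (cc T 1 2 g * cc T 1 4 g) +
      (-1) * (cc T 1 2 g * cc T 1 2 g) + 0 * cc T 1 4 g + (n + 4) * cc T 1 2 g + (-2 * n - 4) +
      0 * tt T 1 g +
      (n + 1) * tt T 3 g + 0 * tt T 5 g + 0 * (if g = 0 then 1 else 0) := by
    intro g
    obtain ⟨h1, h3, h5, hc, hd, h0, hm⟩ := h.vals g
    have e1 := hu g
    have e2 := hle g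
    rcases h3 with h3 | h3 <;> rw [h3] at e1 e2 ⊢
    · have := mul_nonneg e1 (sub_nonneg.2 e2)
      linarith
    · have := mul_nonneg e1 (sub_nonneg.2 e2)
      linarith
  constructor
  · have := h.comb _ _ _ _ _ _ _ _ _ _ hpos
    by_contra hcon
    push Not at hcon
    have hn' : (4 : ℤ) ≤ n := by exact_mod_cast hcon
    nlinarith
  · intro hn3 g hg
    subst hn3
    have hz := h.comb_zero _ _ _ _ _ _ _ _ _ _ hpos (by push_cast; ring) g
    obtain ⟨h1, h3, h5, hc, hd, h0, hm⟩ := h.vals g
    have hmod := h.mod3' g 0 h3'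
    rw [if_neg hg] at hz
    push_cast at hz
    rcases h3 with h3 | h3
    · left
      refine ⟨h3, ?_⟩
      rw [h3] at hz
      have : (cc T 1 2 g - 2) * (cc T 1 2 g - 5) = 0 := by linarith
      rcases mul_eq_zero.1 this with h' | h'
      · exact Or.inl (by linarith)
      · exact Or.inr (by linarith)
    · right
      refine ⟨h3, ?_⟩
      rw [h3] at hz hmod
      have : (cc T 1 2 g - 1) * (cc T 1 2 g - 6) = 0 := by linarith
      rcases mul_eq_zero.1 this with h' | h'
      · linarith
      · exfalso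
        have : cc T 1 2 g = 6 := by linarith
        rw [this] at hmod
        omega

/-- size three -/
lemma PT.case3 (h : PT T 3) : False := by
  have hst := (h.case0 (by norm_num)).2 rfl
  have := h.comb 0 0 0 3 1 (-8) (-6) (-5) 3 15 ?_
  · norm_num at this
  · intro g
    obtain ⟨h1, h3, h5, hc, hd, h0, hm⟩ := h.vals g
    have hmod := h.mod5' g 3 (by norm_num)
    by_cases hg : g = 0
    · obtain ⟨a1, a3, a5, ac⟩ := h0 hg
      rw [if_pos hg, a1, a3, ac]
      have : 1 ≤ cc T 1 4 g + tt T 5 g := by linarith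
      linarith
    · rw [if_neg hg]
      rcases hst g hg with ⟨b3, b | b⟩ | ⟨b3, b⟩
      · rcases h1 with h1 | h1
        · rw [b3, b, h1]; rw [b, h1] at hmod
          have : 2 ≤ cc T 1 4 g + tt T 5 g := by omega
          linarith
        · rw [b3, b, h1]; rw [b, h1] at hmod
          have : 4 ≤ cc T 1 4 g + tt T 5 g := by omega
          linarith
      · rcases h1 with h1 | h1
        · rw [b3, b, h1]; rw [b, h1] at hmod
          have : 1 ≤ cc T 1 4 g + tt T 5 g := by omega
          linarith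
        · have := hm hg h1
          rw [b] at this
          norm_num at this
      · rcases h1 with h1 | h1
        · rw [b3, b, h1]; rw [b, h1] at hmod
          have : 4 ≤ cc T 1 4 g + tt T 5 g := by omega
          linarith
        · have := hm hg h1
          rw [b] at this
          norm_num at this

lemma PT.cop5 {n : ℕ} (hn : (5 : ℤ) ∣ n) : Nat.Coprime (2 * n ^ 2 + 2 * n + 1) 5 := by
  rw [Nat.coprime_comm, Nat.Prime.coprime_iff_not_dvd (by norm_num)]
  intro hd
  obtain ⟨q, hq⟩ : 5 ∣ n := by exact_mod_cast hn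
  rw [hq] at hd
  have : (2 * (5 * q) ^ 2 + 2 * (5 * q) + 1) = 5 * (10 * q ^ 2 + 2 * q) + 1 := by ring
  rw [this] at hd
  omega

/-- class `0 mod 5`: `4 T = T` -/
lemma PT.case5_k (h : PT T n) (h5 : (5 : ℤ) ∣ n) (hn : 4 ≤ n) : cc T 1 4 0 = 2 * n + 1 := by
  have h5' : (5 : ℤ) ∣ n - 0 := by simpa using h5
  have i5 := h.inj (PT.cop5 h5)
  have hw : ∀ g, 0 ≤ cc T 1 4 g - 2 + tt T 5 g := by
    intro g
    obtain ⟨h1, h3, ht5, hc, hd, h0, hm⟩ := h.vals g
    have hmod := h.mod5' g 0 h5'
    omega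
  have hsum : ∑ g, (cc T 1 4 g - 2 + tt T 5 g) = 2 * n := by
    have hc : (T.card : ℤ) = 2 * n + 1 := by exact_mod_cast h.card
    have hN : (Fintype.card G : ℤ) = 2 * (n : ℤ) ^ 2 + 2 * n + 1 := by exact_mod_cast h.card_G
    rw [Finset.sum_add_distrib, Finset.sum_sub_distrib, sum_cc, sum_tt, hc, Finset.sum_const,
      Finset.card_univ, nsmul_eq_mul, hN]
    ring
  have hle : ∀ g, g ≠ 0 → 2 * (cc T 1 4 g - 2 + tt T 5 g) + (cc T 1 4 0 - 1) ≤ 2 * n := by
    intro g hg
    have := h.sym_bound (fun g => cc T 1 4 g - 2 + tt T 5 g) hw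
      (fun g => by rw [h.cc_neg, h.tt_neg]) g hg
    rw [hsum] at this
    rw [h.tt_zero i5] at this
    linarith
  obtain ⟨J, hJ⟩ : ∃ J : ℤ, J = 2 * n + 1 - cc T 1 4 0 := ⟨_, rfl⟩
  have hk : cc T 1 4 0 = 2 * n + 1 - J := by linarith
  have hk1 := h.k_le
  have hk0 : 1 ≤ cc T 1 4 0 := by
    have := hw 0
    rw [h.tt_zero i5] at this
    linarith
  have hfin := h.comb (-2) 0 0 (J + 8) 0 (-2 * J - 8) 0 0 (J + 2)
    (2 * (cc T 1 4 0 - 2) ^ 2 - J * (cc T 1 4 0 - 1) - 2) ?_
  · rw [hk] at hfin hk0 hk1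
    by_contra hcon
    have hJ0 : 0 < J := by
      rcases lt_or_eq_of_le (show 0 ≤ J by linarith) with h' | h'
      · exact h'
      · exfalso; apply hcon; rw [hk, ← h']; ring
    have hn' : (4 : ℤ) ≤ n := by exact_mod_cast hn
    have hJn : J ≤ 2 * n := by linarith
    nlinarith [mul_nonneg hJ0.le (show (0 : ℤ) ≤ 2 * n - J by linarith),
      mul_le_mul_of_nonneg_left hn' hJ0.le]
  · intro g
    obtain ⟨_, _, ht5, hc, hd, h0, _⟩ := h.vals g
    have t5 := PT.tt_le_one i5 T g
    by_cases hg : g = 0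
    · subst hg
      rw [if_pos rfl, h.tt_zero i5]
      nlinarith
    · rw [if_neg hg]
      have e1 := hw g
      have e2 := hle g hg
      have ht : tt T 5 g = 0 ∨ tt T 5 g = 1 := by omega
      rw [hk] at e2
      rcases ht with ht | ht
      · rw [ht] at e1 e2 ⊢
        have := mul_nonneg e1 (show 0 ≤ J - 2 * (cc T 1 4 g - 2 + 0) by linarith)
        linarith
      · rw [ht] at e1 e2 ⊢
        have := mul_nonneg e1 (show 0 ≤ J - 2 * (cc T 1 4 g - 2 + 1) by linarith)
        linarith

/-- class `0 mod 5` -/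
lemma PT.case5 (h : PT T n) (h5 : (5 : ℤ) ∣ n) (hn : 4 ≤ n) : False := by
  have hk := h.case5_k h5 hn
  have h5' : (5 : ℤ) ∣ n - 0 := by simpa using h5
  have i5 := h.inj (PT.cop5 h5)
  have hcard : (T.card : ℤ) = 2 * n + 1 := by exact_mod_cast h.card
  -- `4 T ⊆ T`
  have h4 : ∀ y ∈ T, 4 • y ∈ T := by
    intro y hy
    by_contra hcon
    have hneg : -(4 • y) ∉ T := fun hc => hcon (by simpa using h.neg _ hc)
    have hrow : ∀ z, (∑ x ∈ T, if 1 • x + 4 • z = 0 then (1 : ℤ) else 0) ≤ 1 := by
      intro z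
      by_cases hx : -(4 • z) ∈ T
      · rw [Finset.sum_eq_single (-(4 • z))]
        · rw [if_pos (by simp)]
        · intro b _ hb
          rw [if_neg]
          rw [one_smul]
          intro h0
          exact hb (eq_neg_of_add_eq_zero_left h0)
        · intro hc; exact absurd hx hc
      · rw [Finset.sum_eq_zero]
        · norm_num
        · intro x hxT
          rw [if_neg]
          rw [one_smul]
          intro h0
          apply hx
          rw [← eq_neg_of_add_eq_zero_left h0]
          exact hxT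
    have hrow0 : (∑ x ∈ T, if 1 • x + 4 • y = 0 then (1 : ℤ) else 0) = 0 := by
      apply Finset.sum_eq_zero
      intro x hxT
      rw [if_neg]
      rw [one_smul]
      intro h0
      apply hneg
      rw [← eq_neg_of_add_eq_zero_left h0]
      exact hxT
    have hlt : cc T 1 4 0 < T.card := by
      unfold cc
      rw [Finset.sum_comm, Finset.card_eq_sum_ones]
      push_cast
      refine Finset.sum_lt_sum (fun z _ => hrow z) ⟨y, hy, ?_⟩
      rw [hrow0]; norm_num
    rw [hk, hcard] at hlt
    exact lt_irrefl _ hlt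
  -- hence `T * 4T = T²`
  have hd : ∀ g, cc T 1 4 g = cc T 1 1 g := by
    intro g
    unfold cc
    refine Finset.sum_congr rfl fun x _ => ?_
    have himg : T.image (fun y => 4 • y) = T := by
      apply Finset.eq_of_subset_of_card_le
      · intro z hz
        obtain ⟨y, hy, rfl⟩ := Finset.mem_image.1 hz
        exact h4 y hy
      · rw [Finset.card_image_of_injective _ h.inj4]
    conv_rhs => rw [← himg]
    rw [Finset.sum_image (fun a _ b _ hab => h.inj4 hab)]
    refine Finset.sum_congr rfl fun y _ => ?_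
    simp only [one_smul]
  -- pick a nonzero element
  obtain ⟨y, hy, hy0⟩ : ∃ y ∈ T, y ≠ 0 := by
    by_contra hcon
    push Not at hcon
    have : T ⊆ {0} := fun z hz => Finset.mem_singleton.2 (hcon z hz)
    have := Finset.card_le_card this
    rw [h.card, Finset.card_singleton] at this
    omega
  have h5y0 : 5 • y ≠ 0 := by
    intro hc
    apply hy0
    apply i5
    show 5 • y = 5 • (0 : G)
    rw [hc, smul_zero]
  have hmod := h.mod5' (5 • y) 0 h5'
  rw [hd, h.cc11, if_neg h5y0] at hmod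
  have ht5 : tt T 5 (5 • y) = 1 := by
    have h1 := PT.tt_le_one i5 T (5 • y)
    have h2 : 1 ≤ tt T 5 (5 • y) := by
      unfold tt
      have := Finset.single_le_sum (f := fun x : G => if 5 • x = 5 • y then (1 : ℤ) else 0)
        (fun x _ => by show (0 : ℤ) ≤ if 5 • x = 5 • y then (1 : ℤ) else 0; split_ifs <;> norm_num)
        hy
      simpa using this
    linarith
  have ht2a := PT.tt_le_one h.inj2 T (5 • y)
  have ht2b := tt_nonneg T 2 (5 • y)
  have ht2 : tt T 2 (5 • y) = 1 := by
    rw [ht5] at hmod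
    omega
  obtain ⟨z, hz, hzy⟩ : ∃ z ∈ T, 2 • z = 5 • y := by
    by_contra hcon
    push Not at hcon
    have : tt T 2 (5 • y) = 0 := by
      unfold tt
      exact Finset.sum_eq_zero fun x hx => if_neg (hcon x hx)
    rw [this] at ht2
    norm_num at ht2
  have he : y + 4 • y = z + z := by
    rw [← two_nsmul, hzy]
    rw [show (5 : ℕ) = 1 + 4 from rfl, add_smul, one_smul]
  have h3y : 3 • y ≠ 0 := by
    intro hc
    apply hy0
    apply h.inj (PT.cop3 n)
    show 3 • y = 3 • (0 : G)
    rw [hc, smul_zero]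
  rcases h.un y hy (4 • y) (h4 y hy) z hz z hz he with h' | h' | h'
  · apply h3y
    have : 4 • y = y := h'.2.trans h'.1.symm
    rw [show (4 : ℕ) = 3 + 1 from rfl, add_smul, one_smul] at this
    simpa using this
  · apply h3y
    have : 4 • y = y := h'.2.trans h'.1.symm
    rw [show (4 : ℕ) = 3 + 1 from rfl, add_smul, one_smul] at this
    simpa using this
  · apply h5y0
    have := h'.1
    rw [show (5 : ℕ) = 1 + 4 from rfl, add_smul, one_smul]
    nth_rewrite 1 [this]
    simp

/-- there is no perfect `2`-spanning set of size at least three -/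
theorem PT.size_le (h : PT T n) : n ≤ 2 := by
  by_contra hcon
  push Not at hcon
  by_cases h0 : (3 : ℤ) ∣ n
  · have := (h.case0 h0).1
    have hn : n = 3 := by omega
    subst hn
    exact h.case3
  · by_cases h5 : (5 : ℤ) ∣ n
    · refine h.case5 h5 ?_
      omega
    · have h3 : (3 : ℤ) ∣ n - 1 ∨ (3 : ℤ) ∣ n - 2 := by
        clear h5
        omega
      have h5 : (5 : ℤ) ∣ n - 1 ∨ (5 : ℤ) ∣ n - 2 ∨ (5 : ℤ) ∣ n - 3 ∨ (5 : ℤ) ∣ n - 4 := by
        clear h3 h0
        have h6 : (n : ℤ) % 5 = 1 ∨ (n : ℤ) % 5 = 2 ∨ (n : ℤ) % 5 = 3 ∨ (n : ℤ) % 5 = 4 := by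
          omega
        rcases h6 with h6 | h6 | h6 | h6
        · left; omega
        · right; left; omega
        · right; right; left; omega
        · right; right; right; omega
      rcases h3 with h3 | h3
      · rcases h5 with h5 | h5 | h5 | h5
        · exact h.case11 h3 h5 (by omega)
        · exact h.case12 h3 h5 (by omega)
        · exact h.case13 h3 h5 (by omega)
        · exact h.case14 h3 h5 (by omega)
      · rcases h5 with h5 | h5 | h5 | h5
        · exact h.case2 h3 (Or.inl h5) (by omega)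
        · exact h.case2 h3 (Or.inr (Or.inl h5)) (by omega)
        · exact h.case23 h3 h5 (by omega)
        · exact h.case2 h3 (Or.inr (Or.inr h5)) (by omega)

end

open Pool.Agent.H23.GW in
/-- A perfect `2`-spanning set of a finite abelian group has at most two elements. -/
theorem radius_two (G : Type) [AddCommGroup G] [Finite G] (A : Finset G)
    (h : PerfectSpanning A 2) : A.card ≤ 2 := by
  have := Fintype.ofFinite G
  exact (PT_of_perfect A h).size_le

end Pool.Agent.H21.GW
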