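import Pool.Agent.H21.GW.Ring

/-!
# Moments of the convolutions `T * 2T` and `T * 4T`
-/

set_option autoImplicit false
set_option linter.unusedSectionVars false

open Finset
open scoped Classical

namespace Pool.Agent.H21.GW

noncomputable section

variable {G : Type} [AddCommGroup G] [Fintype G] {T : Finset G} {n : ℕ}

lemma sum_tt (T : Finset G) (k : ℕ) : ∑ g, tt T k g = T.card := by
  unfold tt
  rw [Finset.sum_comm]
  simp

lemma sum_cc (T : Finset G) (a b : ℕ) : ∑ g, cc T a b g = (T.card : ℤ) ^ 2 := by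
  unfold cc
  rw [Finset.sum_comm]
  have : ∀ x ∈ T, ∑ g : G, ∑ y ∈ T, (if a • x + b • y = g then (1 : ℤ) else 0) = T.card := by
    intro x _
    rw [Finset.sum_comm]
    simp
  rw [Finset.sum_congr rfl this]
  simp
  ring

lemma PT.two_zero (h : PT T n) {x : G} (hx : x ∈ T) (h2 : 2 • x = 0) : x = 0 := by
  apply h.dbl x hx
  rw [two_nsmul] at h2
  exact eq_neg_of_add_eq_zero_left h2

lemma cc_eq_card (T : Finset G) (g : G) :
    cc T 1 1 g = (((T ×ˢ T).filter fun p => p.1 + p.2 = g).card : ℤ) := by
  unfold cc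
  rw [Finset.card_filter, Finset.sum_product]
  push_cast
  simp

lemma PT.cc11 (h : PT T n) (g : G) :
    cc T 1 1 g = 2 - tt T 2 g + if g = 0 then 2 * (n : ℤ) else 0 := by
  by_cases hg : g = 0
  · subst hg
    rw [if_pos rfl]
    have h1 : cc T 1 1 0 = 2 * n + 1 := by
      unfold cc
      have : ∀ x ∈ T, (∑ y ∈ T, if 1 • x + 1 • y = 0 then (1 : ℤ) else 0) = 1 := by
        intro x hx
        rw [Finset.sum_eq_single (-x)]
        · simp
        · intro b _ hb
          rw [if_neg]
          rw [one_smul, one_smul]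
          intro h0
          exact hb (eq_neg_of_add_eq_zero_right h0)
        · intro hc; exact absurd (h.neg x hx) hc
      rw [Finset.sum_congr rfl this]
      simp [h.card]
    have h2 : tt T 2 0 = 1 := by
      unfold tt
      rw [Finset.sum_eq_single 0]
      · simp
      · intro b hb hb0
        rw [if_neg]
        intro h0
        exact hb0 (h.two_zero hb h0)
      · intro hc; exact absurd h.zero hc
    rw [h1, h2]; ring
  · rw [if_neg hg, add_zero, cc_eq_card]
    obtain ⟨x0, hx0, y0, hy0, he⟩ := h.ex g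
    have hfil : ((T ×ˢ T).filter fun p => p.1 + p.2 = g) = {(x0, y0), (y0, x0)} := by
      ext ⟨x, y⟩
      rw [Finset.mem_filter, Finset.mem_product, Finset.mem_insert, Finset.mem_singleton]
      simp only [Prod.mk.injEq]
      constructor
      · rintro ⟨⟨hx, hy⟩, hxy⟩
        rcases h.un x hx y hy x0 hx0 y0 hy0 (by rw [hxy, he]) with h1 | h1 | h1
        · exact Or.inl h1
        · exact Or.inr h1
        · exfalso
          apply hg
          rw [← hxy, h1.1]; simp
      · rintro (⟨rfl, rfl⟩ | ⟨rfl, rfl⟩)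
        · exact ⟨⟨hx0, hy0⟩, he⟩
        · exact ⟨⟨hy0, hx0⟩, by rw [add_comm]; exact he⟩
    rw [hfil]
    by_cases hxy : x0 = y0
    · subst hxy
      have h2 : tt T 2 g = 1 := by
        unfold tt
        rw [Finset.sum_eq_single x0]
        · rw [if_pos]; rw [two_nsmul]; exact he
        · intro b hb hb0
          rw [if_neg]
          intro h0
          rw [two_nsmul, ← he] at h0
          rcases h.un b hb b hb x0 hx0 x0 hx0 h0 with h1 | h1 | h1
          · exact hb0 h1.1
          · exact hb0 h1.1
          · apply hg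
            rw [← he, ← h0]
            nth_rewrite 1 [h1.1]
            simp
        · intro hc; exact absurd hx0 hc
      rw [h2]; simp
    · have h2 : tt T 2 g = 0 := by
        unfold tt
        apply Finset.sum_eq_zero
        intro b hb
        rw [if_neg]
        intro h0
        rw [two_nsmul, ← he] at h0
        rcases h.un b hb b hb x0 hx0 y0 hy0 h0 with h1 | h1 | h1
        · exact hxy (h1.1.symm.trans h1.2)
        · exact hxy (h1.2.symm.trans h1.1)
        · apply hg
          rw [← he, ← h0]
          nth_rewrite 1 [h1.1]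
          simp
      rw [h2, Finset.card_pair]
      · simp
      · intro hc
        rw [Prod.mk.injEq] at hc
        exact hxy hc.1

lemma PT.card_G (h : PT T n) : Fintype.card G = 2 * n ^ 2 + 2 * n + 1 := by
  have h1 : ∑ g, cc T 1 1 g = ∑ g, (2 - tt T 2 g + if g = 0 then 2 * (n : ℤ) else 0) :=
    Finset.sum_congr rfl fun g _ => h.cc11 g
  rw [sum_cc, Finset.sum_add_distrib, Finset.sum_sub_distrib, sum_tt, h.card] at h1
  simp only [Finset.sum_const, Finset.card_univ, nsmul_eq_mul, Finset.sum_ite_eq', Finset.mem_univ,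
    if_true] at h1
  push_cast at h1
  have h2 : (Fintype.card G : ℤ) = 2 * n ^ 2 + 2 * n + 1 := by nlinarith
  exact_mod_cast h2

lemma PT.inj (h : PT T n) {k : ℕ} (hk : Nat.Coprime (2 * n ^ 2 + 2 * n + 1) k) :
    Function.Injective fun g : G => k • g := by
  have : (Nat.card G).Coprime k := by
    rw [Nat.card_eq_fintype_card, h.card_G]; exact hk
  exact (nsmulCoprime this).injective

lemma PT.cop2 (n : ℕ) : Nat.Coprime (2 * n ^ 2 + 2 * n + 1) 2 := by
  rw [Nat.coprime_comm, Nat.coprime_two_left, Nat.odd_iff]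
  omega

lemma PT.inj2 (h : PT T n) : Function.Injective fun g : G => 2 • g := h.inj (PT.cop2 n)

lemma PT.inj4 (h : PT T n) : Function.Injective fun g : G => 4 • g := by
  have := Nat.Coprime.mul_right (PT.cop2 n) (PT.cop2 n)
  exact h.inj this

lemma PT.inj8 (h : PT T n) : Function.Injective fun g : G => 8 • g := by
  have := Nat.Coprime.mul_right (Nat.Coprime.mul_right (PT.cop2 n) (PT.cop2 n)) (PT.cop2 n)
  exact h.inj this

lemma PT.tt_le_one {k : ℕ} (hk : Function.Injective fun g : G => k • g) (T : Finset G) (g : G) :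
    tt T k g ≤ 1 := by
  unfold tt
  by_cases hx : ∃ x ∈ T, k • x = g
  · obtain ⟨x, hxT, hx⟩ := hx
    rw [Finset.sum_eq_single x]
    · rw [if_pos hx]
    · intro b _ hb
      rw [if_neg]
      intro hbg
      exact hb (hk (by show k • b = k • x; rw [hbg, hx]))
    · intro hc; exact absurd hxT hc
  · push Not at hx
    rw [Finset.sum_eq_zero]
    · norm_num
    · intro x hxT
      rw [if_neg (hx x hxT)]

lemma tt_nonneg (T : Finset G) (k : ℕ) (g : G) : 0 ≤ tt T k g := by
  unfold tt
  exact Finset.sum_nonneg fun x _ => by split_ifs <;> norm_num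

lemma cc_nonneg (T : Finset G) (a b : ℕ) (g : G) : 0 ≤ cc T a b g := by
  unfold cc
  exact Finset.sum_nonneg fun x _ => Finset.sum_nonneg fun y _ => by split_ifs <;> norm_num

lemma PT.tt_zero (h : PT T n) {k : ℕ} (hk : Function.Injective fun g : G => k • g) :
    tt T k 0 = 1 := by
  unfold tt
  rw [Finset.sum_eq_single 0]
  · simp
  · intro b _ hb0
    rw [if_neg]
    intro h0
    apply hb0
    apply hk
    show k • b = k • (0 : G)
    rw [h0, smul_zero]
  · intro hc; exact absurd h.zero hc

/-- symmetry of the counting function -/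
lemma PT.cc_neg (h : PT T n) (a b : ℕ) (g : G) : cc T a b (-g) = cc T a b g := by
  unfold cc
  refine Finset.sum_nbij' (fun x => -x) (fun x => -x) (fun x hx => h.neg x hx)
    (fun x hx => h.neg x hx) (fun x _ => neg_neg x) (fun x _ => neg_neg x) ?_
  intro x _
  refine Finset.sum_nbij' (fun x => -x) (fun x => -x) (fun x hx => h.neg x hx)
    (fun x hx => h.neg x hx) (fun x _ => neg_neg x) (fun x _ => neg_neg x) ?_
  intro y _
  have : (a • x + b • y = -g) ↔ (a • (-x) + b • (-y) = g) := by
    rw [smul_neg, smul_neg, ← neg_add, neg_eq_iff_eq_neg]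
  by_cases hc : a • x + b • y = -g
  · rw [if_pos hc, if_pos (this.1 hc)]
  · rw [if_neg hc, if_neg fun hc' => hc (this.2 hc')]

lemma cc_double (h2 : Function.Injective fun g : G => 2 • g) (T : Finset G) (a b : ℕ) :
    cc T (2 * a) (2 * b) 0 = cc T a b 0 := by
  unfold cc
  refine Finset.sum_congr rfl fun x _ => Finset.sum_congr rfl fun y _ => ?_
  have : ((2 * a) • x + (2 * b) • y = 0) ↔ (a • x + b • y = 0) := by
    rw [mul_smul, mul_smul, ← smul_add]
    constructor
    · intro h0
      apply h2
      show 2 • (a • x + b • y) = 2 • (0 : G)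
      rw [h0, smul_zero]
    · intro h0
      rw [h0, smul_zero]
  by_cases hc : (2 * a) • x + (2 * b) • y = 0
  · rw [if_pos hc, if_pos (this.1 hc)]
  · rw [if_neg hc, if_neg fun hc' => hc (this.2 hc')]

lemma PT.cc12_zero (h : PT T n) : cc T 1 2 0 = 1 := by
  unfold cc
  rw [Finset.sum_eq_single 0]
  · rw [Finset.sum_eq_single 0]
    · simp
    · intro b hb hb0
      rw [if_neg]
      intro h0
      rw [smul_zero, zero_add] at h0
      exact hb0 (h.two_zero hb h0)
    · intro hc; exact absurd h.zero hc
  · intro x hx hx0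
    apply Finset.sum_eq_zero
    intro y hy
    rw [if_neg]
    intro h0
    rw [one_smul, two_nsmul] at h0
    have h1 : y + y = -x + 0 := by
      rw [add_zero]
      exact (neg_eq_of_add_eq_zero_right h0).symm
    rcases h.un y hy y hy (-x) (h.neg x hx) 0 h.zero h1 with h2 | h2 | h2
    · apply hx0
      rw [← neg_eq_zero, ← h2.1, h2.2]
    · apply hx0
      rw [← neg_eq_zero, ← h2.2, h2.1]
    · apply hx0
      rw [← neg_eq_zero, h2.2, neg_zero]
  · intro hc; exact absurd h.zero hc

lemma PT.cc12_mem (h : PT T n) {a : G} (ha : a ∈ T) (ha0 : a ≠ 0) : cc T 1 2 a = 2 := by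
  have hne : ((a, (0 : G)) : G × G) ≠ (-a, a) := by
    intro hc
    rw [Prod.mk.injEq] at hc
    exact ha0 hc.2.symm
  have hcard : cc T 1 2 a = (((T ×ˢ T).filter fun p => 1 • p.1 + 2 • p.2 = a).card : ℤ) := by
    unfold cc
    rw [Finset.card_filter, Finset.sum_product]
    push_cast
    rfl
  have hfil : ((T ×ˢ T).filter fun p => 1 • p.1 + 2 • p.2 = a) = {(a, 0), (-a, a)} := by
    ext ⟨x, y⟩
    rw [Finset.mem_filter, Finset.mem_product, Finset.mem_insert, Finset.mem_singleton]
    simp only [Prod.mk.injEq]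
    constructor
    · rintro ⟨⟨hx, hy⟩, hxy⟩
      rw [one_smul, two_nsmul] at hxy
      have h1 : y + y = a + -x := by
        rw [← hxy]; abel
      rcases h.un y hy y hy a ha (-x) (h.neg x hx) h1 with h2 | h2 | h2
      · right
        exact ⟨by rw [← h2.1, h2.2, neg_neg], h2.1⟩
      · right
        exact ⟨by rw [← h2.2, h2.1, neg_neg], h2.2⟩
      · left
        refine ⟨by rw [h2.2, neg_neg], h.dbl y hy h2.1⟩
    · rintro (⟨rfl, rfl⟩ | ⟨rfl, rfl⟩)
      · exact ⟨⟨ha, h.zero⟩, by simp⟩
      · exact ⟨⟨h.neg _ ha, ha⟩, by rw [one_smul, two_nsmul]; abel⟩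
  rw [hcard, hfil, Finset.card_pair hne]
  norm_num

end

end Pool.Agent.H21.GW
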