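import Pool.Agent.H21.GW.Mom

/-!
# Moments and congruences of the convolutions `T * 2T` and `T * 4T`
-/

set_option autoImplicit false
set_option linter.unusedSectionVars false

open Finset
open scoped Classical

namespace Pool.Agent.H21.GW

noncomputable section

variable {G : Type} [AddCommGroup G] [Fintype G] {T : Finset G} {n : ℕ}

/-- `T² = 2 G - 2T + 2n` -/
lemma PT.sq (h : PT T n) (R : Type) [CommRing R] :
    PP R T 1 * PP R T 1 = 2 * SS R G - PP R T 2 + 2 * (n : AddMonoidAlgebra R G) := by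
  have hn : (2 * (n : AddMonoidAlgebra R G)) = AddMonoidAlgebra.single 0 ((2 * n : R)) := by
    have : (2 * (n : AddMonoidAlgebra R G)) = ((2 * n : ℕ) : AddMonoidAlgebra R G) := by
      push_cast; ring
    rw [this, AddMonoidAlgebra.natCast_def]
    push_cast
    rfl
  have hs : (2 * SS R G) = (2 : ℕ) • SS R G := by
    rw [nsmul_eq_mul]; norm_num
  rw [hn, hs]
  ext g
  rw [coeff_PP_mul, h.cc11 g, AddMonoidAlgebra.coeff_add, AddMonoidAlgebra.coeff_sub,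
    Finsupp.add_apply, Finsupp.sub_apply, AddMonoidAlgebra.coeff_smul_apply, coeff_SS, coeff_PP,
    AddMonoidAlgebra.coeff_single, Finsupp.single_apply]
  by_cases hg : g = 0
  · rw [if_pos hg, if_pos hg.symm]
    push_cast
    simp
  · rw [if_neg hg, if_neg (fun hc => hg hc.symm)]
    push_cast
    simp

lemma PT.sq2 (h : PT T n) (R : Type) [CommRing R] :
    PP R T 2 * PP R T 2 = 2 * SS R G - PP R T 4 + 2 * (n : AddMonoidAlgebra R G) := by
  have := congrArg (phi R G) (h.sq R)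
  rw [map_mul, map_add, map_sub, map_mul, map_mul, phi_SS R h.inj2, phi_PP, phi_PP, map_natCast,
    map_ofNat] at this
  exact this

lemma PT.sq4 (h : PT T n) (R : Type) [CommRing R] :
    PP R T 4 * PP R T 4 = 2 * SS R G - PP R T 8 + 2 * (n : AddMonoidAlgebra R G) := by
  have := congrArg (phi R G) (h.sq2 R)
  rw [map_mul, map_add, map_sub, map_mul, map_mul, phi_SS R h.inj2, phi_PP, phi_PP, map_natCast,
    map_ofNat] at this
  exact this

/-- coefficient at zero of integer combinations -/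
lemma coeff0 (F : AddMonoidAlgebra ℤ G) (z : ℤ) : ((z : AddMonoidAlgebra ℤ G) * F).coeff 0 =
    z * F.coeff 0 := by
  rw [← zsmul_eq_mul, AddMonoidAlgebra.coeff_smul_apply, smul_eq_mul]

lemma PT.sum_cc_mul (h : PT T n) (a b a' b' : ℕ) :
    ∑ g, cc T a b g * cc T a' b' g =
      (PP ℤ T a * PP ℤ T b * (PP ℤ T a' * PP ℤ T b')).coeff 0 := by
  rw [coeff_mul_zero]
  refine Finset.sum_congr rfl fun g _ => ?_
  rw [coeff_PP_mul, coeff_PP_mul, h.cc_neg]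
  simp

/-- second moment of `T * 2T` -/
lemma PT.m2c (h : PT T n) : ∑ g, cc T 1 2 g * cc T 1 2 g = 12 * (n : ℤ) ^ 2 + 4 * n + 1 := by
  rw [h.sum_cc_mul]
  have hN := h.card_G
  have hSS := SS_mul_SS ℤ (G := G)
  have e1 := h.sq ℤ
  have e2 := h.sq2 ℤ
  have f2 := PP_mul_SS ℤ h.card 2
  have f4 := PP_mul_SS ℤ h.card 4
  rw [hN] at hSS
  have key : PP ℤ T 1 * PP ℤ T 2 * (PP ℤ T 1 * PP ℤ T 2) =
      ((8 * n ^ 2 + 8 * n : ℤ) : AddMonoidAlgebra ℤ G) * SS ℤ G + PP ℤ T 2 * PP ℤ T 4 -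
        ((2 * n : ℤ) : AddMonoidAlgebra ℤ G) * PP ℤ T 2 -
        ((2 * n : ℤ) : AddMonoidAlgebra ℤ G) * PP ℤ T 4 +
        ((4 * n ^ 2 : ℤ) : AddMonoidAlgebra ℤ G) * 1 := by
    push_cast at hSS ⊢
    linear_combination (PP ℤ T 2 * PP ℤ T 2) * e1 +
      (2 * SS ℤ G - PP ℤ T 2 + 2 * (n : AddMonoidAlgebra ℤ G)) * e2 + 4 * hSS - 2 * f2 - 2 * f4
  rw [key, AddMonoidAlgebra.coeff_add, AddMonoidAlgebra.coeff_sub, AddMonoidAlgebra.coeff_sub,
    AddMonoidAlgebra.coeff_add, Finsupp.add_apply, Finsupp.sub_apply, Finsupp.sub_apply,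
    Finsupp.add_apply, coeff0, coeff0, coeff0, coeff0, coeff_SS, coeff_PP_mul, coeff_PP, coeff_PP,
    h.tt_zero h.inj2, h.tt_zero h.inj4, AddMonoidAlgebra.one_def, AddMonoidAlgebra.coeff_single,
    Finsupp.single_apply, if_pos rfl]
  have : cc T 2 4 0 = 1 := by
    have := cc_double h.inj2 T 1 2
    rw [h.cc12_zero] at this
    exact this
  rw [this]
  push_cast
  ring

/-- second moment of `T * 4T` -/
lemma PT.m2d (h : PT T n) :
    ∑ g, cc T 1 4 g * cc T 1 4 g = 12 * (n : ℤ) ^ 2 + 4 * n + cc T 1 4 0 := by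
  rw [h.sum_cc_mul]
  have hN := h.card_G
  have hSS := SS_mul_SS ℤ (G := G)
  have e1 := h.sq ℤ
  have e2 := h.sq4 ℤ
  have f2 := PP_mul_SS ℤ h.card 2
  have f8 := PP_mul_SS ℤ h.card 8
  rw [hN] at hSS
  have key : PP ℤ T 1 * PP ℤ T 4 * (PP ℤ T 1 * PP ℤ T 4) =
      ((8 * n ^ 2 + 8 * n : ℤ) : AddMonoidAlgebra ℤ G) * SS ℤ G + PP ℤ T 2 * PP ℤ T 8 -
        ((2 * n : ℤ) : AddMonoidAlgebra ℤ G) * PP ℤ T 2 -
        ((2 * n : ℤ) : AddMonoidAlgebra ℤ G) * PP ℤ T 8 +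
        ((4 * n ^ 2 : ℤ) : AddMonoidAlgebra ℤ G) * 1 := by
    push_cast at hSS ⊢
    linear_combination (PP ℤ T 4 * PP ℤ T 4) * e1 +
      (2 * SS ℤ G - PP ℤ T 2 + 2 * (n : AddMonoidAlgebra ℤ G)) * e2 + 4 * hSS - 2 * f2 - 2 * f8
  rw [key, AddMonoidAlgebra.coeff_add, AddMonoidAlgebra.coeff_sub, AddMonoidAlgebra.coeff_sub,
    AddMonoidAlgebra.coeff_add, Finsupp.add_apply, Finsupp.sub_apply, Finsupp.sub_apply,
    Finsupp.add_apply, coeff0, coeff0, coeff0, coeff0, coeff_SS, coeff_PP_mul, coeff_PP, coeff_PP,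
    h.tt_zero h.inj2, h.tt_zero h.inj8, AddMonoidAlgebra.one_def, AddMonoidAlgebra.coeff_single,
    Finsupp.single_apply, if_pos rfl]
  have : cc T 2 8 0 = cc T 1 4 0 := cc_double h.inj2 T 1 4
  rw [this]
  push_cast
  ring

/-- mixed moment -/
lemma PT.mcd (h : PT T n) :
    ∑ g, cc T 1 2 g * cc T 1 4 g = 8 * (n : ℤ) ^ 2 + 6 * n + 1 := by
  rw [h.sum_cc_mul]
  have e1 := h.sq ℤ
  have e2 := h.sq2 ℤ
  have e4 := h.sq4 ℤ
  have f2 := PP_mul_SS ℤ h.card 2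
  have f4 := PP_mul_SS ℤ h.card 4
  have key : PP ℤ T 1 * PP ℤ T 2 * (PP ℤ T 1 * PP ℤ T 4) =
      ((8 * n ^ 2 + 4 * n + 2 : ℤ) : AddMonoidAlgebra ℤ G) * SS ℤ G +
        ((2 * n : ℤ) : AddMonoidAlgebra ℤ G) * (PP ℤ T 2 * PP ℤ T 4) -
        ((1 : ℤ) : AddMonoidAlgebra ℤ G) * PP ℤ T 8 -
        ((2 * n : ℤ) : AddMonoidAlgebra ℤ G) * PP ℤ T 4 +
        ((2 * n : ℤ) : AddMonoidAlgebra ℤ G) * 1 := by
    push_cast
    linear_combination (PP ℤ T 2 * PP ℤ T 4) * e1 - PP ℤ T 4 * e2 + e4 + 2 * PP ℤ T 4 * f2 +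
      (4 * (n : AddMonoidAlgebra ℤ G)) * f4
  rw [key, AddMonoidAlgebra.coeff_add, AddMonoidAlgebra.coeff_sub, AddMonoidAlgebra.coeff_sub,
    AddMonoidAlgebra.coeff_add, Finsupp.add_apply, Finsupp.sub_apply, Finsupp.sub_apply,
    Finsupp.add_apply, coeff0, coeff0, coeff0, coeff0, coeff0, coeff_SS, coeff_PP_mul, coeff_PP,
    coeff_PP, h.tt_zero h.inj4, h.tt_zero h.inj8, AddMonoidAlgebra.one_def,
    AddMonoidAlgebra.coeff_single, Finsupp.single_apply, if_pos rfl]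
  have : cc T 2 4 0 = 1 := by
    have := cc_double h.inj2 T 1 2
    rw [h.cc12_zero] at this
    exact this
  rw [this]
  push_cast
  ring

/-- Frobenius -/
lemma frob (p : ℕ) [Fact p.Prime] (T : Finset G) :
    PP (ZMod p) T 1 ^ p = PP (ZMod p) T p := by
  have : CharP (AddMonoidAlgebra (ZMod p) G) p :=
    charP_of_injective_algebraMap
      (algebraMap (ZMod p) (AddMonoidAlgebra (ZMod p) G)).injective p
  unfold PP
  rw [sum_pow_char]
  refine Finset.sum_congr rfl fun x _ => ?_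
  rw [AddMonoidAlgebra.single_pow, one_pow, one_smul]

lemma coeff_int_mul (R : Type) [CommRing R] (F : AddMonoidAlgebra R G) (z : ℤ) (g : G) :
    ((z : AddMonoidAlgebra R G) * F).coeff g = (z : R) * F.coeff g := by
  rw [← zsmul_eq_mul, AddMonoidAlgebra.coeff_smul_apply, zsmul_eq_mul]

/-- congruence modulo three -/
lemma PT.mod3 (h : PT T n) (g : G) :
    (3 : ℤ) ∣ (4 * n + 2) - cc T 1 2 g + 2 * n * tt T 1 g - tt T 3 g := by
  have : Fact (Nat.Prime 3) := ⟨by norm_num⟩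
  have hF := frob 3 T
  have e1 := h.sq (ZMod 3)
  have f1 := PP_mul_SS (ZMod 3) h.card 1
  have key : PP (ZMod 3) T 1 ^ 3 = ((4 * n + 2 : ℤ) : AddMonoidAlgebra (ZMod 3) G) * SS (ZMod 3) G -
      ((1 : ℤ) : AddMonoidAlgebra (ZMod 3) G) * (PP (ZMod 3) T 1 * PP (ZMod 3) T 2) +
      ((2 * n : ℤ) : AddMonoidAlgebra (ZMod 3) G) * PP (ZMod 3) T 1 := by
    push_cast
    linear_combination PP (ZMod 3) T 1 * e1 + 2 * f1
  rw [hF] at key
  have hc := congrArg (fun F => F.coeff g) key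
  rw [AddMonoidAlgebra.coeff_add, AddMonoidAlgebra.coeff_sub, Finsupp.add_apply,
    Finsupp.sub_apply, coeff_int_mul, coeff_int_mul, coeff_int_mul, coeff_PP, coeff_SS,
    coeff_PP_mul, coeff_PP] at hc
  have h3 : (((4 * n + 2) - cc T 1 2 g + 2 * n * tt T 1 g - tt T 3 g : ℤ) : ZMod 3) = 0 := by
    push_cast at hc ⊢
    rw [hc]
    ring
  exact (ZMod.intCast_zmod_eq_zero_iff_dvd _ 3).1 h3

/-- congruence modulo five -/
lemma PT.mod5 (h : PT T n) (g : G) :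
    (5 : ℤ) ∣ (4 * (2 * (n : ℤ) ^ 2 + 2 * n + 1) - 2) * (2 * n + 1) - cc T 1 4 g -
      4 * n * cc T 1 2 g + (4 * (n : ℤ) ^ 2 + 2 * n) * tt T 1 g - tt T 5 g := by
  have : Fact (Nat.Prime 5) := ⟨by norm_num⟩
  have hF := frob 5 T
  have hN := h.card_G
  have hSS := SS_mul_SS (ZMod 5) (G := G)
  rw [hN] at hSS
  have e1 := h.sq (ZMod 5)
  have e2 := h.sq2 (ZMod 5)
  have f1 := PP_mul_SS (ZMod 5) h.card 1
  have f2 := PP_mul_SS (ZMod 5) h.card 2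
  have key4 : PP (ZMod 5) T 1 ^ 4 =
      ((4 * (2 * (n : ℤ) ^ 2 + 2 * n + 1) - 2 : ℤ) : AddMonoidAlgebra (ZMod 5) G) * SS (ZMod 5) G -
      PP (ZMod 5) T 4 - 4 * (n : AddMonoidAlgebra (ZMod 5) G) * PP (ZMod 5) T 2 +
      (4 * (n : AddMonoidAlgebra (ZMod 5) G) ^ 2 + 2 * n) := by
    push_cast at hSS ⊢
    linear_combination (PP (ZMod 5) T 1 * PP (ZMod 5) T 1 + 2 * SS (ZMod 5) G - PP (ZMod 5) T 2 +
      2 * (n : AddMonoidAlgebra (ZMod 5) G)) * e1 + 4 * hSS + e2 - 4 * f2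
  have key : PP (ZMod 5) T 1 ^ 5 =
      (((4 * (2 * (n : ℤ) ^ 2 + 2 * n + 1) - 2) * (2 * n + 1) : ℤ) : AddMonoidAlgebra (ZMod 5) G) *
        SS (ZMod 5) G -
      ((1 : ℤ) : AddMonoidAlgebra (ZMod 5) G) * (PP (ZMod 5) T 1 * PP (ZMod 5) T 4) -
      ((4 * n : ℤ) : AddMonoidAlgebra (ZMod 5) G) * (PP (ZMod 5) T 1 * PP (ZMod 5) T 2) +
      ((4 * (n : ℤ) ^ 2 + 2 * n : ℤ) : AddMonoidAlgebra (ZMod 5) G) * PP (ZMod 5) T 1 := by
    push_cast at key4 ⊢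
    linear_combination PP (ZMod 5) T 1 * key4 + (4 * (2 * (n : AddMonoidAlgebra (ZMod 5) G) ^ 2 +
      2 * n + 1) - 2) * f1
  rw [hF] at key
  have hc := congrArg (fun F => F.coeff g) key
  rw [AddMonoidAlgebra.coeff_add, AddMonoidAlgebra.coeff_sub, AddMonoidAlgebra.coeff_sub,
    Finsupp.add_apply, Finsupp.sub_apply, Finsupp.sub_apply, coeff_int_mul, coeff_int_mul,
    coeff_int_mul, coeff_int_mul, coeff_PP, coeff_SS, coeff_PP_mul, coeff_PP_mul, coeff_PP] at hc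
  have h3 : (((4 * (2 * (n : ℤ) ^ 2 + 2 * n + 1) - 2) * (2 * n + 1) - cc T 1 4 g -
      4 * n * cc T 1 2 g + (4 * (n : ℤ) ^ 2 + 2 * n) * tt T 1 g - tt T 5 g : ℤ) : ZMod 5) = 0 := by
    push_cast at hc ⊢
    rw [hc]
    ring
  exact (ZMod.intCast_zmod_eq_zero_iff_dvd _ 5).1 h3

end

end Pool.Agent.H21.GW
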