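import Mathlib
import Pool.Agent.H23.GW.Defs

/-!
# Perfect `2`-spanning sets through the set `T = {0, ± a}`
-/

set_option autoImplicit false

open Finset Pool.Agent.H23.GW
open scoped Classical

namespace Pool.Agent.H21.GW

noncomputable section

/-- The properties of `T = {0, ± a : a ∈ A}` for a perfect `2`-spanning set `A` of size `n`. -/
structure PT {G : Type} [AddCommGroup G] (T : Finset G) (n : ℕ) : Prop where
  card : T.card = 2 * n + 1
  zero : (0 : G) ∈ T
  neg : ∀ x ∈ T, -x ∈ T
  dbl : ∀ x ∈ T, x = -x → x = 0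
  ex : ∀ g : G, ∃ x ∈ T, ∃ y ∈ T, x + y = g
  un : ∀ x ∈ T, ∀ y ∈ T, ∀ x' ∈ T, ∀ y' ∈ T, x + y = x' + y' →
    (x = x' ∧ y = y') ∨ (x = y' ∧ y = x') ∨ (x = -y ∧ x' = -y')

/-- multiples of the unit vectors -/
def sg {ι : Type} (i : ι) (z : ℤ) : ι → ℤ := fun j => if j = i then z else 0

lemma sg_same {ι : Type} (i : ι) (z : ℤ) : sg i z i = z := by simp [sg]

lemma sg_ne {ι : Type} {i j : ι} (h : j ≠ i) (z : ℤ) : sg i z j = 0 := by simp [sg, h]

/-- vectors of norm at most one -/
def U1 {ι : Type} [Fintype ι] (u : ι → ℤ) : Prop := ∑ a, |u a| ≤ 1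

lemma U1.other {ι : Type} [Fintype ι] {u : ι → ℤ} (h : U1 u) {i : ι} (hi : u i ≠ 0) :
    ∀ j, j ≠ i → u j = 0 := by
  intro j hj
  by_contra hne
  have h1 : |u i| + |u j| ≤ ∑ a, |u a| := by
    rw [← Finset.sum_pair (f := fun a => |u a|) (Ne.symm hj)]
    exact Finset.sum_le_sum_of_subset_of_nonneg (Finset.subset_univ _)
      (fun _ _ _ => abs_nonneg _)
  have h2 : 1 ≤ |u i| := Int.one_le_abs hi
  have h3 : 1 ≤ |u j| := Int.one_le_abs hne
  have h4 : ∑ a, |u a| ≤ 1 := h
  linarith

lemma U1.le {ι : Type} [Fintype ι] {u : ι → ℤ} (h : U1 u) (i : ι) : |u i| ≤ 1 :=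
  (Finset.single_le_sum (fun a _ => abs_nonneg (u a)) (Finset.mem_univ i)).trans h

lemma U1.single {ι : Type} [Fintype ι] {u : ι → ℤ} (h : U1 u) {i : ι} (hi : u i ≠ 0) :
    u = sg i (u i) := by
  funext j
  by_cases hj : j = i
  · subst hj; rw [sg_same]
  · rw [h.other hi j hj, sg_ne hj]

lemma U1_single {ι : Type} [Fintype ι] (i : ι) (z : ℤ) (hz : |z| ≤ 1) :
    U1 (sg i z) := by
  unfold U1
  rw [Finset.sum_eq_single i]
  · rw [sg_same]; exact hz
  · intro b _ hb
    rw [sg_ne hb]; simp
  · intro hi; exact absurd (Finset.mem_univ i) hi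

lemma U1_zero {ι : Type} [Fintype ι] : U1 (0 : ι → ℤ) := by simp [U1]

/-- the combinatorial heart of uniqueness -/
lemma U1_pairs {ι : Type} [Fintype ι] {u v u' v' : ι → ℤ} (hu : U1 u) (hv : U1 v) (hu' : U1 u')
    (hv' : U1 v') (h : u + v = u' + v') :
    (u = u' ∧ v = v') ∨ (u = v' ∧ v = u') ∨ (u = -v ∧ u' = -v') := by
  -- a nonzero first vector which is not the opposite of the second one is one of the two others
  have key : ∀ {a b c d : ι → ℤ}, U1 a → U1 b → U1 c → U1 d → a + b = c + d → a ≠ -b → a ≠ 0 →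
      a = c ∨ a = d := by
    intro a b c d ha hb hc hd habcd hab ha0
    by_contra hcon
    push Not at hcon
    obtain ⟨i, hi⟩ : ∃ i, a i ≠ 0 := by
      by_contra hno
      push Not at hno
      exact ha0 (funext hno)
    have hai := ha.single hi
    have hE := congrFun habcd i
    simp only [Pi.add_apply] at hE
    have hale := ha.le i
    have hble := hb.le i
    have hcle := hc.le i
    have hdle := hd.le i
    have hb1 : b i ≠ - a i := by
      intro hbi
      apply hab
      have hb0 : b i ≠ 0 := by rw [hbi]; exact neg_ne_zero.2 hi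
      have hbs := hb.single hb0
      funext j
      by_cases hj : j = i
      · subst hj; rw [Pi.neg_apply, hbi, neg_neg]
      · rw [Pi.neg_apply, ha.other hi j hj, hb.other hb0 j hj, neg_zero]
    have hc1 : c i ≠ a i := by
      intro hci
      apply hcon.1
      have hc0 : c i ≠ 0 := by rw [hci]; exact hi
      funext j
      by_cases hj : j = i
      · subst hj; exact hci.symm
      · rw [ha.other hi j hj, hc.other hc0 j hj]
    have hd1 : d i ≠ a i := by
      intro hdi
      apply hcon.2
      have hd0 : d i ≠ 0 := by rw [hdi]; exact hi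
      funext j
      by_cases hj : j = i
      · subst hj; exact hdi.symm
      · rw [ha.other hi j hj, hd.other hd0 j hj]
    rw [abs_le] at hale hble hcle hdle
    omega
  by_cases h1 : u = -v
  · refine Or.inr (Or.inr ⟨h1, ?_⟩)
    have : u' + v' = 0 := by rw [← h, h1]; simp
    exact eq_neg_of_add_eq_zero_left this
  · by_cases hu0 : u = 0
    · have hv0 : v ≠ 0 := by
        intro hv0
        apply h1
        rw [hu0, hv0]; simp
      have h2 : v ≠ -u := by
        intro hvu
        apply h1
        rw [hvu]; simp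
      rcases key hv hu hu' hv' (by rw [add_comm v u]; exact h) h2 hv0 with h3 | h3
      · right; left
        refine ⟨?_, h3⟩
        rw [← h3] at h
        have : u = v' := by
          have := h
          rw [add_comm u v] at this
          exact add_left_cancel this
        exact this
      · left
        refine ⟨?_, h3⟩
        rw [← h3] at h
        exact add_right_cancel h
    · rcases key hu hv hu' hv' h h1 hu0 with h3 | h3
      · left
        refine ⟨h3, ?_⟩
        rw [← h3] at h
        exact add_left_cancel h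
      · right; left
        refine ⟨h3, ?_⟩
        rw [← h3, add_comm u' u] at h
        exact add_left_cancel h

variable {G : Type} [AddCommGroup G]

/-- the evaluation -/
def evA (A : Finset G) : (A → ℤ) →+ G where
  toFun c := ∑ a, c a • (a : G)
  map_zero' := by simp
  map_add' := by intro x y; simp [add_smul, Finset.sum_add_distrib]

lemma evA_single (A : Finset G) (a : A) (z : ℤ) : evA A (sg a z) = z • (a : G) := by
  show ∑ b, (sg a z : A → ℤ) b • (b : G) = z • (a : G)
  rw [Finset.sum_eq_single a]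
  · rw [sg_same]
  · intro b _ hb
    rw [sg_ne hb, zero_smul]
  · intro hi; exact absurd (Finset.mem_univ a) hi

/-- the set `{0, ± a}` -/
def TT (A : Finset G) : Finset G := insert 0 (A ∪ A.image fun x => -x)

lemma evA_mem_TT (A : Finset G) {u : A → ℤ} (hu : U1 u) : evA A u ∈ TT A := by
  by_cases h0 : u = 0
  · rw [h0, map_zero]; exact Finset.mem_insert_self _ _
  · obtain ⟨i, hi⟩ : ∃ i, u i ≠ 0 := by
      by_contra hno
      push Not at hno
      exact h0 (funext hno)
    have hs := hu.single hi
    have hle := hu.le i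
    rw [hs, evA_single]
    have : u i = 1 ∨ u i = -1 := by
      rw [abs_le] at hle
      omega
    rcases this with h | h
    · rw [h, one_smul]
      exact Finset.mem_insert_of_mem (Finset.mem_union_left _ i.2)
    · rw [h, neg_smul, one_smul]
      exact Finset.mem_insert_of_mem (Finset.mem_union_right _
        (Finset.mem_image.2 ⟨i, i.2, rfl⟩))

lemma exists_of_mem_TT (A : Finset G) {x : G} (hx : x ∈ TT A) : ∃ u : A → ℤ, U1 u ∧ evA A u = x := by
  unfold TT at hx
  rw [Finset.mem_insert, Finset.mem_union, Finset.mem_image] at hx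
  rcases hx with h | h | ⟨a, ha, h⟩
  · exact ⟨0, U1_zero, by rw [map_zero, h]⟩
  · exact ⟨sg ⟨x, h⟩ 1, U1_single _ _ (by simp), by rw [evA_single]; simp⟩
  · exact ⟨sg ⟨a, ha⟩ (-1), U1_single _ _ (by simp), by rw [evA_single]; simpa using h⟩

lemma U1.add_le {ι : Type} [Fintype ι] {u v : ι → ℤ} (hu : U1 u) (hv : U1 v) :
    ∑ a, |(u + v) a| ≤ 2 := by
  have : ∑ a, |(u + v) a| ≤ ∑ a, (|u a| + |v a|) :=
    Finset.sum_le_sum fun a _ => abs_add_le _ _
  rw [Finset.sum_add_distrib] at this
  have h1 : ∑ a, |u a| ≤ 1 := hu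
  have h2 : ∑ a, |v a| ≤ 1 := hv
  linarith

lemma PT_of_perfect (A : Finset G) (h : PerfectSpanning A 2) : PT (TT A) A.card := by
  have inj : ∀ u v : A → ℤ, ∑ a, |u a| ≤ 2 → ∑ a, |v a| ≤ 2 → evA A u = evA A v → u = v := by
    intro u v hu hv huv
    obtain ⟨c, _, hc⟩ := h (evA A v)
    rw [hc u ⟨by exact_mod_cast hu, huv⟩, hc v ⟨by exact_mod_cast hv, rfl⟩]
  have inj1 : ∀ u v : A → ℤ, U1 u → U1 v → evA A u = evA A v → u = v := by
    intro u v hu hv huv
    refine inj u v ?_ ?_ huv
    · exact le_trans hu (by norm_num)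
    · exact le_trans hv (by norm_num)
  have hdisj : Disjoint A (A.image fun x => -x) := by
    rw [Finset.disjoint_left]
    intro x hx hx'
    obtain ⟨y, hy, hyx⟩ := Finset.mem_image.1 hx'
    have := inj1 (sg ⟨x, hx⟩ 1) (sg ⟨y, hy⟩ (-1)) (U1_single _ _ (by simp))
      (U1_single _ _ (by simp)) (by rw [evA_single, evA_single]; simpa using hyx.symm)
    have h1 := congrFun this ⟨x, hx⟩
    rw [sg_same] at h1
    by_cases hxy : (⟨x, hx⟩ : A) = ⟨y, hy⟩
    · rw [hxy, sg_same] at h1; omega
    · rw [sg_ne hxy] at h1; omega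
  have h0 : (0 : G) ∉ A ∪ A.image fun x => -x := by
    intro h0
    rw [Finset.mem_union, Finset.mem_image] at h0
    have hA0 : (0 : G) ∈ A := by
      rcases h0 with h0 | ⟨a, ha, h0⟩
      · exact h0
      · rw [neg_eq_zero] at h0; rwa [h0] at ha
    have := inj1 (sg ⟨0, hA0⟩ 1) 0 (U1_single _ _ (by simp)) U1_zero
      (by rw [evA_single]; simp)
    have h1 := congrFun this ⟨0, hA0⟩
    rw [sg_same] at h1
    simp at h1
  refine ⟨?_, ?_, ?_, ?_, ?_, ?_⟩
  · unfold TT
    rw [Finset.card_insert_of_notMem h0, Finset.card_union_of_disjoint hdisj,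
      Finset.card_image_of_injective _ neg_injective]
    ring
  · exact Finset.mem_insert_self _ _
  · intro x hx
    unfold TT at hx ⊢
    rw [Finset.mem_insert, Finset.mem_union, Finset.mem_image] at hx ⊢
    rcases hx with h | h | ⟨a, ha, h⟩
    · left; rw [h]; simp
    · right; right; exact ⟨x, h, rfl⟩
    · right; left; rw [← h]; simpa using ha
  · intro x hx hxx
    obtain ⟨u, hu, hux⟩ := exists_of_mem_TT A hx
    have hnu : U1 (-u) := by
      have : ∑ a, |(-u) a| = ∑ a, |u a| := Finset.sum_congr rfl fun a _ => by simp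
      unfold U1
      rw [this]
      exact hu
    have := inj1 u (-u) hu hnu (by rw [map_neg, hux]; exact hxx)
    have hu0 : u = 0 := by
      funext a
      have h1 := congrFun this a
      simp only [Pi.neg_apply] at h1
      simp only [Pi.zero_apply]
      omega
    rw [← hux, hu0, map_zero]
  · intro g
    obtain ⟨c, ⟨hc, hcg⟩, _⟩ := h g
    by_cases hc0 : c = 0
    · refine ⟨0, Finset.mem_insert_self _ _, 0, Finset.mem_insert_self _ _, ?_⟩
      rw [← hcg, hc0]; simp
    · obtain ⟨i, hi⟩ : ∃ i, c i ≠ 0 := by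
        by_contra hno
        push Not at hno
        exact hc0 (funext hno)
      have hsg : |(c i).sign| = 1 := by
        rcases lt_or_gt_of_ne hi with h1 | h1
        · rw [Int.sign_eq_neg_one_of_neg h1]; simp
        · rw [Int.sign_eq_one_of_pos h1]; simp
      have hu : U1 (sg i (c i).sign) := U1_single _ _ (le_of_eq hsg)
      have hv : U1 (c - sg i (c i).sign) := by
        have h2 : ∀ a, |(c - sg i (c i).sign) a| = |c a| - if a = i then 1 else 0 := by
          intro a
          by_cases ha : a = i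
          · subst ha
            rw [if_pos rfl, Pi.sub_apply, sg_same]
            rcases lt_or_gt_of_ne hi with h1 | h1
            · rw [Int.sign_eq_neg_one_of_neg h1, abs_of_neg h1, abs_of_nonpos (by omega)]; omega
            · rw [Int.sign_eq_one_of_pos h1, abs_of_pos h1, abs_of_nonneg (by omega)]
          · rw [if_neg ha, Pi.sub_apply, sg_ne ha]; simp
        unfold U1
        rw [Finset.sum_congr rfl fun a _ => h2 a, Finset.sum_sub_distrib]
        simp only [Finset.sum_ite_eq', Finset.mem_univ, if_true]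
        have hc2 : ∑ a, |c a| ≤ 2 := by exact_mod_cast hc
        linarith
      refine ⟨_, evA_mem_TT A hu, _, evA_mem_TT A hv, ?_⟩
      rw [← map_add]
      have : sg i (c i).sign + (c - sg i (c i).sign) = c := by
        rw [add_sub_cancel]
      rw [this]
      exact hcg
  · intro x hx y hy x' hx' y' hy' he
    obtain ⟨u, hu, hux⟩ := exists_of_mem_TT A hx
    obtain ⟨v, hv, hvy⟩ := exists_of_mem_TT A hy
    obtain ⟨u', hu', hux'⟩ := exists_of_mem_TT A hx'
    obtain ⟨v', hv', hvy'⟩ := exists_of_mem_TT A hy'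
    have hE : u + v = u' + v' := by
      refine inj _ _ (hu.add_le hv) (hu'.add_le hv') ?_
      rw [map_add, map_add, hux, hvy, hux', hvy']
      exact he
    rcases U1_pairs hu hv hu' hv' hE with ⟨h1, h2⟩ | ⟨h1, h2⟩ | ⟨h1, h2⟩
    · left; exact ⟨by rw [← hux, ← hux', h1], by rw [← hvy, ← hvy', h2]⟩
    · right; left; exact ⟨by rw [← hux, ← hvy', h1], by rw [← hvy, ← hux', h2]⟩
    · right; right
      exact ⟨by rw [← hux, ← hvy, h1, map_neg], by rw [← hux', ← hvy', h2, map_neg]⟩

end

end Pool.Agent.H21.GW
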