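import Pool.Agent.H21.GW.Mom2

/-!
# No perfect `2`-spanning sets of size at least three
-/

set_option autoImplicit false
set_option linter.unusedSectionVars false

open Finset
open scoped Classical

namespace Pool.Agent.H21.GW

noncomputable section

variable {G : Type} [AddCommGroup G] [Fintype G] {T : Finset G} {n : ℕ}

/-- the combination lemma: nonnegative quadratic forms in the two counting functions -/
lemma PT.comb (h : PT T n) (a b e f l m u v w z : ℤ)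
    (hpos : ∀ g, 0 ≤ a * (cc T 1 4 g * cc T 1 4 g) + b * (cc T 1 2 g * cc T 1 4 g) +
      e * (cc T 1 2 g * cc T 1 2 g) + f * cc T 1 4 g + l * cc T 1 2 g + m + u * tt T 1 g +
      v * tt T 3 g + w * tt T 5 g + z * (if g = 0 then 1 else 0)) :
    0 ≤ a * (12 * (n : ℤ) ^ 2 + 4 * n + cc T 1 4 0) + b * (8 * (n : ℤ) ^ 2 + 6 * n + 1) +
      e * (12 * (n : ℤ) ^ 2 + 4 * n + 1) + (f + l) * (2 * n + 1) ^ 2 +
      m * (2 * (n : ℤ) ^ 2 + 2 * n + 1) + (u + v + w) * (2 * n + 1) + z := by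
  have hs := Finset.sum_nonneg fun g (_ : g ∈ (Finset.univ : Finset G)) => hpos g
  have hc : (T.card : ℤ) = 2 * n + 1 := by exact_mod_cast h.card
  have hN : (Fintype.card G : ℤ) = 2 * (n : ℤ) ^ 2 + 2 * n + 1 := by exact_mod_cast h.card_G
  simp only [Finset.sum_add_distrib, ← Finset.mul_sum] at hs
  rw [h.m2d, h.mcd, h.m2c, sum_cc, sum_cc, sum_tt, sum_tt, sum_tt, hc] at hs
  simp only [Finset.sum_const, Finset.card_univ, nsmul_eq_mul, Finset.sum_ite_eq',
    Finset.mem_univ, if_true, hN] at hs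
  linarith

/-- the same for a function with vanishing total -/
lemma PT.comb_zero (h : PT T n) (a b e f l m u v w z : ℤ)
    (hpos : ∀ g, 0 ≤ a * (cc T 1 4 g * cc T 1 4 g) + b * (cc T 1 2 g * cc T 1 4 g) +
      e * (cc T 1 2 g * cc T 1 2 g) + f * cc T 1 4 g + l * cc T 1 2 g + m + u * tt T 1 g +
      v * tt T 3 g + w * tt T 5 g + z * (if g = 0 then 1 else 0))
    (hz : a * (12 * (n : ℤ) ^ 2 + 4 * n + cc T 1 4 0) + b * (8 * (n : ℤ) ^ 2 + 6 * n + 1) +
      e * (12 * (n : ℤ) ^ 2 + 4 * n + 1) + (f + l) * (2 * n + 1) ^ 2 +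
      m * (2 * (n : ℤ) ^ 2 + 2 * n + 1) + (u + v + w) * (2 * n + 1) + z = 0) (g : G) :
    a * (cc T 1 4 g * cc T 1 4 g) + b * (cc T 1 2 g * cc T 1 4 g) +
      e * (cc T 1 2 g * cc T 1 2 g) + f * cc T 1 4 g + l * cc T 1 2 g + m + u * tt T 1 g +
      v * tt T 3 g + w * tt T 5 g + z * (if g = 0 then 1 else 0) = 0 := by
  have hs : ∑ g, (a * (cc T 1 4 g * cc T 1 4 g) + b * (cc T 1 2 g * cc T 1 4 g) +
      e * (cc T 1 2 g * cc T 1 2 g) + f * cc T 1 4 g + l * cc T 1 2 g + m + u * tt T 1 g +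
      v * tt T 3 g + w * tt T 5 g + z * (if g = 0 then 1 else 0)) = 0 := by
    have hc : (T.card : ℤ) = 2 * n + 1 := by exact_mod_cast h.card
    have hN : (Fintype.card G : ℤ) = 2 * (n : ℤ) ^ 2 + 2 * n + 1 := by exact_mod_cast h.card_G
    simp only [Finset.sum_add_distrib, ← Finset.mul_sum]
    rw [h.m2d, h.mcd, h.m2c, sum_cc, sum_cc, sum_tt, sum_tt, sum_tt, hc]
    simp only [Finset.sum_const, Finset.card_univ, nsmul_eq_mul, Finset.sum_ite_eq',
      Finset.mem_univ, if_true, hN]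
    linarith
  exact (Finset.sum_eq_zero_iff_of_nonneg fun g _ => hpos g).1 hs g (Finset.mem_univ g)

lemma PT.mod3' (h : PT T n) (g : G) (r : ℤ) (hr : (3 : ℤ) ∣ n - r) :
    (3 : ℤ) ∣ (4 * r + 2) - cc T 1 2 g + 2 * r * tt T 1 g - tt T 3 g := by
  have h1 := h.mod3 g
  have h2 : (3 : ℤ) ∣ ((n : ℤ) - r) * (4 + 2 * tt T 1 g) := Dvd.dvd.mul_right hr _
  have h3 := dvd_sub h1 h2
  have : (4 * (n : ℤ) + 2) - cc T 1 2 g + 2 * n * tt T 1 g - tt T 3 g -
      ((n : ℤ) - r) * (4 + 2 * tt T 1 g) =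
      (4 * r + 2) - cc T 1 2 g + 2 * r * tt T 1 g - tt T 3 g := by ring
  rwa [this] at h3

lemma PT.mod5' (h : PT T n) (g : G) (r : ℤ) (hr : (5 : ℤ) ∣ n - r) :
    (5 : ℤ) ∣ 2 * (2 * r + 1) ^ 3 - cc T 1 4 g - 4 * r * cc T 1 2 g +
      (4 * r ^ 2 + 2 * r) * tt T 1 g - tt T 5 g := by
  have h1 := h.mod5 g
  have h2 : (5 : ℤ) ∣ ((n : ℤ) - r) * (4 * ((2 * n + 1) ^ 2 + (2 * n + 1) * (2 * r + 1) +
      (2 * r + 1) ^ 2) - 4 * cc T 1 2 g + (4 * (n + r) + 2) * tt T 1 g) := Dvd.dvd.mul_right hr _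
  have h3 := dvd_sub h1 h2
  have : (4 * (2 * (n : ℤ) ^ 2 + 2 * n + 1) - 2) * (2 * n + 1) - cc T 1 4 g -
      4 * n * cc T 1 2 g + (4 * (n : ℤ) ^ 2 + 2 * n) * tt T 1 g - tt T 5 g -
      ((n : ℤ) - r) * (4 * ((2 * n + 1) ^ 2 + (2 * n + 1) * (2 * r + 1) +
      (2 * r + 1) ^ 2) - 4 * cc T 1 2 g + (4 * (n + r) + 2) * tt T 1 g) =
      2 * (2 * r + 1) ^ 3 - cc T 1 4 g - 4 * r * cc T 1 2 g +
      (4 * r ^ 2 + 2 * r) * tt T 1 g - tt T 5 g := by ring
  rwa [this] at h3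

lemma PT.cop3 (n : ℕ) : Nat.Coprime (2 * n ^ 2 + 2 * n + 1) 3 := by
  rw [Nat.coprime_comm, Nat.Prime.coprime_iff_not_dvd (by norm_num)]
  intro hd
  have h1 : (2 * n ^ 2 + 2 * n + 1) % 3 = 0 := Nat.mod_eq_zero_of_dvd hd
  have h2 : n % 3 = 0 ∨ n % 3 = 1 ∨ n % 3 = 2 := by omega
  rcases h2 with h2 | h2 | h2 <;> simp [Nat.add_mod, Nat.mul_mod, Nat.pow_mod, h2] at h1

lemma PT.inj1 : Function.Injective fun g : G => 1 • g := by
  intro x y hxy
  simpa using hxy

lemma tt_one_mem (T : Finset G) (g : G) : tt T 1 g = if g ∈ T then 1 else 0 := by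
  unfold tt
  simp

/-- the four values at a point -/
lemma PT.vals (h : PT T n) (g : G) :
    (tt T 1 g = 0 ∨ tt T 1 g = 1) ∧ (tt T 3 g = 0 ∨ tt T 3 g = 1) ∧ 0 ≤ tt T 5 g ∧
      0 ≤ cc T 1 2 g ∧ 0 ≤ cc T 1 4 g ∧ (g = 0 → tt T 1 g = 1 ∧ tt T 3 g = 1 ∧ 1 ≤ tt T 5 g ∧
        cc T 1 2 g = 1) ∧ (g ≠ 0 → tt T 1 g = 1 → cc T 1 2 g = 2) := by
  have h1 := PT.tt_le_one PT.inj1 T g
  have h3 := PT.tt_le_one (h.inj (PT.cop3 n)) T g
  refine ⟨?_, ?_, tt_nonneg T 5 g, cc_nonneg T 1 2 g, cc_nonneg T 1 4 g, ?_, ?_⟩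
  · have := tt_nonneg T 1 g; omega
  · have := tt_nonneg T 3 g; omega
  · rintro rfl
    refine ⟨h.tt_zero PT.inj1, h.tt_zero (h.inj (PT.cop3 n)), ?_, h.cc12_zero⟩
    unfold tt
    have := Finset.single_le_sum (f := fun x : G => if 5 • x = (0 : G) then (1 : ℤ) else 0)
      (fun x _ => by show (0 : ℤ) ≤ if 5 • x = (0 : G) then (1 : ℤ) else 0; split_ifs <;> norm_num)
      h.zero
    simpa using this
  · intro hg ht
    rw [tt_one_mem] at ht
    have hgT : g ∈ T := by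
      by_contra hc
      rw [if_neg hc] at ht
      exact absurd ht (by norm_num)
    exact h.cc12_mem hgT hg

/-- structure for `n = 1 mod 3` -/
lemma PT.struct1 (h : PT T n) (hn : (3 : ℤ) ∣ n - 1) (g : G) (hg : g ≠ 0) :
    (tt T 1 g = 1 ∧ tt T 3 g = 0 ∧ cc T 1 2 g = 2) ∨
    (tt T 1 g = 0 ∧ tt T 3 g = 1 ∧ cc T 1 2 g = 2) ∨
    (tt T 1 g = 0 ∧ tt T 3 g = 0 ∧ (cc T 1 2 g = 0 ∨ cc T 1 2 g = 3)) := by
  have hz := h.comb_zero 0 0 1 0 (-3) 0 2 2 0 (-2) ?_ (by ring) g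
  · obtain ⟨h1, h3, h5, hc, hd, _, hm⟩ := h.vals g
    have hmod := h.mod3' g 1 hn
    rw [if_neg hg] at hz
    rcases h1 with h1 | h1
    · rcases h3 with h3 | h3
      · right; right
        refine ⟨h1, h3, ?_⟩
        rw [h1, h3] at hz
        have : cc T 1 2 g * (cc T 1 2 g - 3) = 0 := by linarith
        rcases mul_eq_zero.1 this with h' | h'
        · exact Or.inl h'
        · exact Or.inr (by linarith)
      · right; left
        refine ⟨h1, h3, ?_⟩
        rw [h1, h3] at hz hmod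
        have : (cc T 1 2 g - 1) * (cc T 1 2 g - 2) = 0 := by linarith
        rcases mul_eq_zero.1 this with h' | h'
        · exfalso
          have : cc T 1 2 g = 1 := by linarith
          rw [this] at hmod
          omega
        · linarith
    · left
      have hc2 := hm hg h1
      refine ⟨h1, ?_, hc2⟩
      rw [h1, hc2] at hmod
      rcases h3 with h3 | h3
      · exact h3
      · rw [h3] at hmod; omega
  · intro g
    obtain ⟨h1, h3, h5, hc, hd, h0, hm⟩ := h.vals g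
    have hmod := h.mod3' g 1 hn
    by_cases hg : g = 0
    · obtain ⟨a1, a3, a5, ac⟩ := h0 hg
      rw [if_pos hg, a1, a3, ac]
      norm_num
    · rw [if_neg hg]
      rcases h1 with h1 | h1
      · rcases h3 with h3 | h3
        · rw [h1, h3] at hmod ⊢
          obtain ⟨q, hq⟩ : (3 : ℤ) ∣ cc T 1 2 g := by omega
          rw [hq] at hc ⊢
          have hq0 : 0 ≤ q := by omega
          rcases hq0.eq_or_lt with h' | h'
          · rw [← h']; norm_num
          · nlinarith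
        · rw [h1, h3] at hmod ⊢
          nlinarith [mul_self_nonneg (cc T 1 2 g - 2), mul_self_nonneg (cc T 1 2 g - 1),
            Int.le_self_sq (cc T 1 2 g - 1)]
      · have hc2 := hm hg h1
        rw [h1, hc2]
        rcases h3 with h3 | h3 <;> rw [h3] <;> norm_num

/-- structure for `n = 2 mod 3` -/
lemma PT.struct2 (h : PT T n) (hn : (3 : ℤ) ∣ n - 2) (g : G) (hg : g ≠ 0) :
    (tt T 1 g = 1 ∧ tt T 3 g = 0 ∧ cc T 1 2 g = 2) ∨
    (tt T 1 g = 0 ∧ tt T 3 g = 1 ∧ cc T 1 2 g = 3) ∨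
    (tt T 1 g = 0 ∧ tt T 3 g = 0 ∧ (cc T 1 2 g = 1 ∨ cc T 1 2 g = 4)) := by
  have hz := h.comb_zero 0 0 1 0 (-5) 4 2 2 0 (-4) ?_ (by ring) g
  · obtain ⟨h1, h3, h5, hc, hd, _, hm⟩ := h.vals g
    have hmod := h.mod3' g 2 hn
    rw [if_neg hg] at hz
    rcases h1 with h1 | h1
    · rcases h3 with h3 | h3
      · right; right
        refine ⟨h1, h3, ?_⟩
        rw [h1, h3] at hz
        have : (cc T 1 2 g - 1) * (cc T 1 2 g - 4) = 0 := by linarith
        rcases mul_eq_zero.1 this with h' | h'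
        · exact Or.inl (by linarith)
        · exact Or.inr (by linarith)
      · right; left
        refine ⟨h1, h3, ?_⟩
        rw [h1, h3] at hz hmod
        have : (cc T 1 2 g - 2) * (cc T 1 2 g - 3) = 0 := by linarith
        rcases mul_eq_zero.1 this with h' | h'
        · exfalso
          have : cc T 1 2 g = 2 := by linarith
          rw [this] at hmod
          omega
        · linarith
    · left
      have hc2 := hm hg h1
      refine ⟨h1, ?_, hc2⟩
      rw [h1, hc2] at hmod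
      rcases h3 with h3 | h3
      · exact h3
      · rw [h3] at hmod; omega
  · intro g
    obtain ⟨h1, h3, h5, hc, hd, h0, hm⟩ := h.vals g
    have hmod := h.mod3' g 2 hn
    by_cases hg : g = 0
    · obtain ⟨a1, a3, a5, ac⟩ := h0 hg
      rw [if_pos hg, a1, a3, ac]
      norm_num
    · rw [if_neg hg]
      rcases h1 with h1 | h1
      · rcases h3 with h3 | h3
        · rw [h1, h3] at hmod ⊢
          obtain ⟨q, hq⟩ : (3 : ℤ) ∣ cc T 1 2 g - 1 := by omega
          have hq' : cc T 1 2 g = 3 * q + 1 := by omega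
          rw [hq'] at hc ⊢
          have hq0 : 0 ≤ q := by omega
          rcases hq0.eq_or_lt with h' | h'
          · rw [← h']; norm_num
          · nlinarith
        · rw [h1, h3] at hmod ⊢
          nlinarith [Int.le_self_sq (cc T 1 2 g - 2)]
      · have hc2 := hm hg h1
        rw [h1, hc2]
        rcases h3 with h3 | h3 <;> rw [h3] <;> norm_num

end

end Pool.Agent.H21.GW
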