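import Pool.Agent.H21.GW.PT

/-!
# Group ring identities for perfect `2`-spanning sets
-/

set_option autoImplicit false
set_option linter.unusedSectionVars false

open Finset
open scoped Classical

namespace Pool.Agent.H21.GW

noncomputable section

variable {G : Type} [AddCommGroup G]

/-- the group ring element of the set `k T` -/
def PP (R : Type) [CommRing R] (T : Finset G) (k : ℕ) : AddMonoidAlgebra R G :=
  ∑ x ∈ T, AddMonoidAlgebra.single (k • x) 1

/-- the sum of all group elements -/
def SS (R : Type) [CommRing R] (G : Type) [AddCommGroup G] [Fintype G] : AddMonoidAlgebra R G :=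
  ∑ g : G, AddMonoidAlgebra.single g 1

/-- number of solutions of `a x + b y = g` in `T` -/
def cc (T : Finset G) (a b : ℕ) (g : G) : ℤ :=
  ∑ x ∈ T, ∑ y ∈ T, if a • x + b • y = g then 1 else 0

/-- number of solutions of `k x = g` in `T` -/
def tt (T : Finset G) (k : ℕ) (g : G) : ℤ := ∑ x ∈ T, if k • x = g then 1 else 0

lemma coeff_PP (R : Type) [CommRing R] (T : Finset G) (k : ℕ) (g : G) :
    (PP R T k).coeff g = ((tt T k g : ℤ) : R) := by
  unfold PP tt
  rw [AddMonoidAlgebra.coeff_sum, Finsupp.finsetSum_apply, Int.cast_sum]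
  refine Finset.sum_congr rfl fun x _ => ?_
  rw [AddMonoidAlgebra.coeff_single, Finsupp.single_apply]
  split_ifs <;> simp

lemma PP_mul (R : Type) [CommRing R] (T : Finset G) (a b : ℕ) :
    PP R T a * PP R T b = ∑ x ∈ T, ∑ y ∈ T, AddMonoidAlgebra.single (a • x + b • y) 1 := by
  unfold PP
  rw [Finset.sum_mul_sum]
  refine Finset.sum_congr rfl fun x _ => Finset.sum_congr rfl fun y _ => ?_
  rw [AddMonoidAlgebra.single_mul_single, one_mul]

lemma coeff_PP_mul (R : Type) [CommRing R] (T : Finset G) (a b : ℕ) (g : G) :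
    (PP R T a * PP R T b).coeff g = ((cc T a b g : ℤ) : R) := by
  rw [PP_mul]
  unfold cc
  rw [AddMonoidAlgebra.coeff_sum, Finsupp.finsetSum_apply, Int.cast_sum]
  refine Finset.sum_congr rfl fun x _ => ?_
  rw [AddMonoidAlgebra.coeff_sum, Finsupp.finsetSum_apply, Int.cast_sum]
  refine Finset.sum_congr rfl fun y _ => ?_
  rw [AddMonoidAlgebra.coeff_single, Finsupp.single_apply]
  split_ifs <;> simp

variable [Fintype G]

lemma coeff_SS (R : Type) [CommRing R] (g : G) : (SS R G).coeff g = 1 := by
  unfold SS
  rw [AddMonoidAlgebra.coeff_sum, Finsupp.finsetSum_apply]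
  have : ∀ x : G, (AddMonoidAlgebra.single x (1 : R)).coeff g = if x = g then 1 else 0 := by
    intro x
    rw [AddMonoidAlgebra.coeff_single, Finsupp.single_apply]
  rw [Finset.sum_congr rfl fun x _ => this x]
  simp

lemma single_mul_SS (R : Type) [CommRing R] (x : G) :
    AddMonoidAlgebra.single x (1 : R) * SS R G = SS R G := by
  unfold SS
  rw [Finset.mul_sum]
  have : ∀ g : G, AddMonoidAlgebra.single x (1 : R) * AddMonoidAlgebra.single g 1 =
      AddMonoidAlgebra.single (x + g) 1 := by
    intro g
    rw [AddMonoidAlgebra.single_mul_single, one_mul]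
  rw [Finset.sum_congr rfl fun g _ => this g]
  exact Equiv.sum_comp (Equiv.addLeft x) (fun g => AddMonoidAlgebra.single g (1 : R))

lemma PP_mul_SS (R : Type) [CommRing R] {T : Finset G} {n : ℕ} (h : T.card = 2 * n + 1) (k : ℕ) :
    PP R T k * SS R G = (2 * n + 1) * SS R G := by
  unfold PP
  rw [Finset.sum_mul, Finset.sum_congr rfl fun x _ => single_mul_SS R (k • x), Finset.sum_const, h,
    nsmul_eq_mul]
  push_cast
  ring

lemma SS_mul_SS (R : Type) [CommRing R] :
    SS R G * SS R G = (Fintype.card G : AddMonoidAlgebra R G) * SS R G := by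
  show (∑ x : G, AddMonoidAlgebra.single x (1 : R)) * SS R G = _
  rw [Finset.sum_mul, Finset.sum_congr rfl fun x _ => single_mul_SS R x, Finset.sum_const,
    nsmul_eq_mul, Finset.card_univ]

/-- coefficient at zero of a product -/
lemma coeff_mul_zero (R : Type) [CommRing R] (F H : AddMonoidAlgebra R G) :
    (F * H).coeff 0 = ∑ g, F.coeff g * H.coeff (-g) := by
  rw [AddMonoidAlgebra.coeff_mul, Finsupp.sum_fintype _ _ (by simp)]
  refine Finset.sum_congr rfl fun g _ => ?_
  rw [Finsupp.sum_fintype _ _ (by simp), Finset.sum_eq_single (-g)]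
  · rw [if_pos (by simp)]
  · intro b _ hb
    rw [if_neg]
    intro h
    exact hb (eq_neg_of_add_eq_zero_right h)
  · intro hi; exact absurd (Finset.mem_univ _) hi

/-- the ring homomorphism induced by multiplication by `2` -/
def phi (R : Type) [CommRing R] (G : Type) [AddCommGroup G] :
    AddMonoidAlgebra R G →+* AddMonoidAlgebra R G :=
  AddMonoidAlgebra.mapDomainRingHom R (2 • AddMonoidHom.id G)

lemma phi_single (R : Type) [CommRing R] (x : G) (r : R) :
    phi R G (AddMonoidAlgebra.single x r) = AddMonoidAlgebra.single (2 • x) r := by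
  unfold phi
  simp

lemma phi_PP (R : Type) [CommRing R] (T : Finset G) (k : ℕ) :
    phi R G (PP R T k) = PP R T (2 * k) := by
  unfold PP
  rw [map_sum]
  refine Finset.sum_congr rfl fun x _ => ?_
  rw [phi_single, mul_smul]

lemma phi_SS (R : Type) [CommRing R] (h2 : Function.Injective fun g : G => 2 • g) :
    phi R G (SS R G) = SS R G := by
  unfold SS
  rw [map_sum, Finset.sum_congr rfl fun x _ => phi_single R x 1]
  have hb : Function.Bijective fun g : G => 2 • g := Finite.injective_iff_bijective.1 h2
  exact Equiv.sum_comp (Equiv.ofBijective _ hb) (fun g => AddMonoidAlgebra.single g (1 : R))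

end

end Pool.Agent.H21.GW
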