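import Mathlib
import Pool.Agent.H23.GW.Defs

/-!
# Perfect spanning sets with two elements
-/

set_option autoImplicit false
set_option linter.unusedSectionVars false

open Finset Pool.Agent.H23.GW
open scoped Classical

namespace Pool.Agent.H21.GW

noncomputable section

variable {G : Type} [AddCommGroup G]

/-- a pair of elements which is a perfect `s`-spanning set -/
structure Pair2 (a b : G) (s : ℤ) : Prop where
  ex : ∀ g : G, ∃ x y : ℤ, |x| + |y| ≤ s ∧ x • a + y • b = g
  un : ∀ x y x' y' : ℤ, |x| + |y| ≤ s → |x'| + |y'| ≤ s → x • a + y • b = x' • a + y' • b →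
    x = x' ∧ y = y'

variable {a b : G} {s : ℤ}

lemma Pair2.flip (h : Pair2 a b s) : Pair2 a (-b) s := by
  constructor
  · intro g
    obtain ⟨x, y, hxy, hg⟩ := h.ex g
    exact ⟨x, -y, by rwa [abs_neg], by rw [smul_neg, neg_smul, neg_neg]; exact hg⟩
  · intro x y x' y' h1 h2 he
    have := h.un x (-y) x' (-y') (by rwa [abs_neg]) (by rwa [abs_neg]) (by
      rw [smul_neg, smul_neg] at he
      rw [neg_smul, neg_smul]; exact he)
    exact ⟨this.1, by linarith [this.2]⟩

/-- short relations are trivial -/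
lemma Pair2.short (h : Pair2 a b s) (x y : ℤ) (hn : |x| + |y| ≤ 2 * s) (h0 : x • a + y • b = 0) :
    x = 0 ∧ y = 0 := by
  have split : ∃ x1 y1 : ℤ, |x1| + |y1| ≤ s ∧ |x1 - x| + |y1 - y| ≤ s := by
    by_cases hx : |x| ≤ s
    · by_cases hy : |y| ≤ s - |x|
      · refine ⟨x, y, by linarith, ?_⟩
        have h1 := abs_nonneg x
        have h2 := abs_nonneg y
        simp only [sub_self, abs_zero]
        linarith
      · push Not at hy
        rcases le_total 0 y with h' | h'
        · refine ⟨x, s - |x|, ?_, ?_⟩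
          · rw [abs_of_nonneg (show (0 : ℤ) ≤ s - |x| by linarith)]; linarith
          · rw [abs_of_nonneg h'] at hy hn
            rw [sub_self, abs_zero, abs_of_nonpos (by linarith)]; linarith
        · refine ⟨x, -(s - |x|), ?_, ?_⟩
          · rw [abs_neg, abs_of_nonneg (show (0 : ℤ) ≤ s - |x| by linarith)]; linarith
          · rw [abs_of_nonpos h'] at hy hn
            rw [sub_self, abs_zero, abs_of_nonneg (by linarith)]; linarith
    · push Not at hx
      have h2 := abs_nonneg y
      rcases le_total 0 x with h' | h'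
      · rw [abs_of_nonneg h'] at hx hn
        refine ⟨s, 0, ?_, ?_⟩
        · rw [abs_zero, abs_of_nonneg (by linarith)]; linarith
        · rw [zero_sub, abs_neg, abs_of_nonpos (by linarith)]; linarith
      · rw [abs_of_nonpos h'] at hx hn
        refine ⟨-s, 0, ?_, ?_⟩
        · rw [abs_zero, abs_neg, abs_of_nonneg (by linarith)]; linarith
        · rw [zero_sub, abs_neg, abs_of_nonneg (by linarith)]; linarith
  obtain ⟨x1, y1, h1, h2⟩ := split
  have := h.un x1 y1 (x1 - x) (y1 - y) h1 h2 (by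
    rw [sub_smul, sub_smul]
    have : x1 • a - x • a + (y1 • b - y • b) = x1 • a + y1 • b - (x • a + y • b) := by abel
    rw [this, h0, sub_zero])
  constructor
  · linarith [this.1]
  · linarith [this.2]

/-- points of norm `s + 1` are covered -/
lemma Pair2.cover (h : Pair2 a b s) (x y : ℤ) (hn : |x| + |y| = s + 1) :
    ∃ v w : ℤ, v • a + w • b = 0 ∧ |v| + |w| = 2 * s + 1 ∧ |v - x| + |w - y| ≤ s := by
  obtain ⟨x1, y1, h1, hg⟩ := h.ex (x • a + y • b)
  refine ⟨x - x1, y - y1, ?_, ?_, ?_⟩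
  · rw [sub_smul, sub_smul]
    have : x • a - x1 • a + (y • b - y1 • b) = x • a + y • b - (x1 • a + y1 • b) := by abel
    rw [this, hg, sub_self]
  · have hle : |x - x1| + |y - y1| ≤ 2 * s + 1 := by
      have e1 := abs_sub x x1
      have e2 := abs_sub y y1
      linarith
    by_contra hne
    have hlt : |x - x1| + |y - y1| ≤ 2 * s := by omega
    have h0 : (x - x1) • a + (y - y1) • b = 0 := by
      rw [sub_smul, sub_smul]
      have : x • a - x1 • a + (y • b - y1 • b) = x • a + y • b - (x1 • a + y1 • b) := by abel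
      rw [this, hg, sub_self]
    have := h.short _ _ hlt h0
    have hx : x = x1 := by linarith [this.1]
    have hy : y = y1 := by linarith [this.2]
    rw [← hx, ← hy] at h1
    omega
  · have e1 : x - x1 - x = -x1 := by ring
    have e2 : y - y1 - y = -y1 := by ring
    rw [e1, e2, abs_neg, abs_neg]
    exact h1

/-- the first quadrant contains one of the two vectors -/
lemma Pair2.quad (h : Pair2 a b s) (hs : 1 ≤ s) :
    s • a + (s + 1) • b = 0 ∨ (s + 1) • a + s • b = 0 := by
  obtain ⟨x, w, h0, hn, hc⟩ := h.cover 1 s (by rw [abs_one, abs_of_nonneg (by linarith)]; ring)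
  have hx1 : 1 ≤ x ∧ s ≤ w ∧ x + w = 2 * s + 1 := by
    refine ⟨?_, ?_, ?_⟩
    · by_contra hcon
      push Not at hcon
      rw [abs_of_neg (show x - 1 < 0 by linarith)] at hc
      rcases le_total 0 x with h' | h' <;> rcases le_total 0 w with h'' | h'' <;>
        [rw [abs_of_nonneg h', abs_of_nonneg h''] at hn; rw [abs_of_nonneg h', abs_of_nonpos h''] at hn;
          rw [abs_of_nonpos h', abs_of_nonneg h''] at hn;
          rw [abs_of_nonpos h', abs_of_nonpos h''] at hn] <;>
        rcases abs_cases (w - s) with ⟨h3, h4⟩ | ⟨h3, h4⟩ <;> rw [h3] at hc <;> omega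
    · by_contra hcon
      push Not at hcon
      rw [abs_of_neg (show w - s < 0 by linarith)] at hc
      rcases le_total 0 x with h' | h' <;> rcases le_total 0 w with h'' | h'' <;>
        [rw [abs_of_nonneg h', abs_of_nonneg h''] at hn; rw [abs_of_nonneg h', abs_of_nonpos h''] at hn;
          rw [abs_of_nonpos h', abs_of_nonneg h''] at hn;
          rw [abs_of_nonpos h', abs_of_nonpos h''] at hn] <;>
        rcases abs_cases (x - 1) with ⟨h3, h4⟩ | ⟨h3, h4⟩ <;> rw [h3] at hc <;> omega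
    · rcases le_total 0 x with h' | h' <;> rcases le_total 0 w with h'' | h'' <;>
        [rw [abs_of_nonneg h', abs_of_nonneg h''] at hn; rw [abs_of_nonneg h', abs_of_nonpos h''] at hn;
          rw [abs_of_nonpos h', abs_of_nonneg h''] at hn;
          rw [abs_of_nonpos h', abs_of_nonpos h''] at hn] <;>
        rcases abs_cases (x - 1) with ⟨h3, h4⟩ | ⟨h3, h4⟩ <;>
        rcases abs_cases (w - s) with ⟨h5, h6⟩ | ⟨h5, h6⟩ <;> rw [h3, h5] at hc <;> omega
  obtain ⟨hx1, hw1, hxw⟩ := hx1
  have hw : w = 2 * s + 1 - x := by linarith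
  by_cases hxs : x = s
  · left
    rw [hxs] at h0 hw
    rw [hw] at h0
    rw [show s + 1 = 2 * s + 1 - s by ring]; exact h0
  by_cases hxs1 : x = s + 1
  · right
    rw [hxs1] at h0 hw
    rw [hw] at h0
    rw [show (2 * s + 1 - (s + 1)) = s by ring] at h0
    exact h0
  exfalso
  have hxlt : x ≤ s - 1 := by omega
  -- cover `(x + 1, s - x)`
  obtain ⟨x2, w2, h02, hn2, hc2⟩ := h.cover (x + 1) (s - x) (by
    rw [abs_of_nonneg (by linarith), abs_of_nonneg (by linarith)]; ring)
  have hx2 : x + 1 ≤ x2 ∧ s - x ≤ w2 ∧ x2 + w2 = 2 * s + 1 := by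
    refine ⟨?_, ?_, ?_⟩
    · by_contra hcon
      push Not at hcon
      rw [abs_of_neg (show x2 - (x + 1) < 0 by linarith)] at hc2
      rcases le_total 0 x2 with h' | h' <;> rcases le_total 0 w2 with h'' | h'' <;>
        [rw [abs_of_nonneg h', abs_of_nonneg h''] at hn2;
          rw [abs_of_nonneg h', abs_of_nonpos h''] at hn2;
          rw [abs_of_nonpos h', abs_of_nonneg h''] at hn2;
          rw [abs_of_nonpos h', abs_of_nonpos h''] at hn2] <;>
        rcases abs_cases (w2 - (s - x)) with ⟨h3, h4⟩ | ⟨h3, h4⟩ <;> rw [h3] at hc2 <;> omega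
    · by_contra hcon
      push Not at hcon
      rw [abs_of_neg (show w2 - (s - x) < 0 by linarith)] at hc2
      rcases le_total 0 x2 with h' | h' <;> rcases le_total 0 w2 with h'' | h'' <;>
        [rw [abs_of_nonneg h', abs_of_nonneg h''] at hn2;
          rw [abs_of_nonneg h', abs_of_nonpos h''] at hn2;
          rw [abs_of_nonpos h', abs_of_nonneg h''] at hn2;
          rw [abs_of_nonpos h', abs_of_nonpos h''] at hn2] <;>
        rcases abs_cases (x2 - (x + 1)) with ⟨h3, h4⟩ | ⟨h3, h4⟩ <;> rw [h3] at hc2 <;> omega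
    · rcases le_total 0 x2 with h' | h' <;> rcases le_total 0 w2 with h'' | h'' <;>
        [rw [abs_of_nonneg h', abs_of_nonneg h''] at hn2;
          rw [abs_of_nonneg h', abs_of_nonpos h''] at hn2;
          rw [abs_of_nonpos h', abs_of_nonneg h''] at hn2;
          rw [abs_of_nonpos h', abs_of_nonpos h''] at hn2] <;>
        rcases abs_cases (x2 - (x + 1)) with ⟨h3, h4⟩ | ⟨h3, h4⟩ <;>
        rcases abs_cases (w2 - (s - x)) with ⟨h5, h6⟩ | ⟨h5, h6⟩ <;> rw [h3, h5] at hc2 <;> omega
  obtain ⟨hx2a, hx2b, hx2c⟩ := hx2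
  -- the difference
  have hdiff : (x2 - x) • a + (w2 - w) • b = 0 := by
    rw [sub_smul, sub_smul]
    have : x2 • a - x • a + (w2 • b - w • b) = x2 • a + w2 • b - (x • a + w • b) := by abel
    rw [this, h0, h02, sub_zero]
  have hd : x2 - x = s + 1 := by
    by_contra hne
    have hle : x2 - x ≤ s := by omega
    have := h.short (x2 - x) (w2 - w) (by
      rw [abs_of_nonneg (by linarith), abs_of_nonpos (by linarith)]; linarith) hdiff
    omega
  have hD : (s + 1) • a + (-(s + 1)) • b = 0 := by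
    rw [← hd, show -(x2 - x) = w2 - w by linarith]; exact hdiff
  -- cover `(s, -1)`
  obtain ⟨x3, w3, h03, hn3, hc3⟩ := h.cover s (-1) (by
    rw [abs_neg, abs_one, abs_of_nonneg (by linarith)])
  have hx3 : s ≤ x3 ∧ w3 ≤ -1 ∧ x3 - w3 = 2 * s + 1 := by
    refine ⟨?_, ?_, ?_⟩
    · by_contra hcon
      push Not at hcon
      rw [abs_of_neg (show x3 - s < 0 by linarith)] at hc3
      rcases le_total 0 x3 with h' | h' <;> rcases le_total 0 w3 with h'' | h'' <;>
        [rw [abs_of_nonneg h', abs_of_nonneg h''] at hn3;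
          rw [abs_of_nonneg h', abs_of_nonpos h''] at hn3;
          rw [abs_of_nonpos h', abs_of_nonneg h''] at hn3;
          rw [abs_of_nonpos h', abs_of_nonpos h''] at hn3] <;>
        rcases abs_cases (w3 - (-1)) with ⟨h3, h4⟩ | ⟨h3, h4⟩ <;> rw [h3] at hc3 <;> omega
    · by_contra hcon
      push Not at hcon
      rw [abs_of_nonneg (show 0 ≤ w3 - (-1) by linarith)] at hc3
      rcases le_total 0 x3 with h' | h' <;> rcases le_total 0 w3 with h'' | h'' <;>
        [rw [abs_of_nonneg h', abs_of_nonneg h''] at hn3;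
          rw [abs_of_nonneg h', abs_of_nonpos h''] at hn3;
          rw [abs_of_nonpos h', abs_of_nonneg h''] at hn3;
          rw [abs_of_nonpos h', abs_of_nonpos h''] at hn3] <;>
        rcases abs_cases (x3 - s) with ⟨h3, h4⟩ | ⟨h3, h4⟩ <;> rw [h3] at hc3 <;> omega
    · rcases le_total 0 x3 with h' | h' <;> rcases le_total 0 w3 with h'' | h'' <;>
        [rw [abs_of_nonneg h', abs_of_nonneg h''] at hn3;
          rw [abs_of_nonneg h', abs_of_nonpos h''] at hn3;
          rw [abs_of_nonpos h', abs_of_nonneg h''] at hn3;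
          rw [abs_of_nonpos h', abs_of_nonpos h''] at hn3] <;>
        rcases abs_cases (x3 - s) with ⟨h3, h4⟩ | ⟨h3, h4⟩ <;>
        rcases abs_cases (w3 - (-1)) with ⟨h5, h6⟩ | ⟨h5, h6⟩ <;> rw [h3, h5] at hc3 <;> omega
  obtain ⟨hx3a, hx3b, hx3c⟩ := hx3
  have hdiff3 : (x3 - (s + 1)) • a + (w3 - (-(s + 1))) • b = 0 := by
    rw [sub_smul, sub_smul]
    have : x3 • a - (s + 1) • a + (w3 • b - (-(s + 1)) • b) =
      x3 • a + w3 • b - ((s + 1) • a + (-(s + 1)) • b) := by abel
    rw [this, hD, h03, sub_zero]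
  have hsh := h.short (x3 - (s + 1)) (w3 - (-(s + 1))) (by
    rcases abs_cases (x3 - (s + 1)) with ⟨h3, h4⟩ | ⟨h3, h4⟩ <;>
    rcases abs_cases (w3 - (-(s + 1))) with ⟨h5, h6⟩ | ⟨h5, h6⟩ <;> rw [h3, h5] <;> omega) hdiff3
  omega

/-- `b` generates, and `a = ± (2 s + 1) b` -/
lemma Pair2.gen (h : Pair2 a b s) (hs : 1 ≤ s) :
    (a = (2 * s + 1) • b ∨ a = -((2 * s + 1) • b)) ∧ (2 * s ^ 2 + 2 * s + 1) • b = 0 := by
  have h1 := h.quad hs
  have h2 := h.flip.quad hs
  rcases h1 with h1 | h1 <;> rcases h2 with h2 | h2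
  · exfalso
    have h3 : (2 * s) • a + (0 : ℤ) • b = 0 := by
      have : (2 * s) • a + (0 : ℤ) • b = (s • a + (s + 1) • b) + (s • a + (s + 1) • (-b)) := by
        rw [zero_smul, two_mul, add_smul, smul_neg]; abel
      rw [this, h1, h2, add_zero]
    have := h.short _ _ (by rw [abs_zero, abs_of_nonneg (by linarith)]; linarith) h3
    omega
  · have ha : a = (2 * s + 1) • b := by
      have : a - (2 * s + 1) • b = ((s + 1) • a + s • (-b)) - (s • a + (s + 1) • b) := by
        rw [smul_neg]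
        module
      rw [h1, h2, sub_zero] at this
      exact sub_eq_zero.1 this
    refine ⟨Or.inl ha, ?_⟩
    rw [ha] at h1
    rw [← h1]
    module
  · have ha : a = -((2 * s + 1) • b) := by
      have : a - (-((2 * s + 1) • b)) = ((s + 1) • a + s • b) - (s • a + (s + 1) • (-b)) := by
        rw [smul_neg]
        module
      rw [h1, h2, sub_zero] at this
      exact sub_eq_zero.1 this
    refine ⟨Or.inr ha, ?_⟩
    rw [ha] at h1
    have : (2 * s ^ 2 + 2 * s + 1) • b = -((s + 1) • (-((2 * s + 1) • b)) + s • b) := by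
      module
    rw [this, h1, neg_zero]
  · exfalso
    have h3 : (0 : ℤ) • a + (2 * s) • b = 0 := by
      have : (0 : ℤ) • a + (2 * s) • b = ((s + 1) • a + s • b) - ((s + 1) • a + s • (-b)) := by
        rw [zero_smul, two_mul, add_smul, smul_neg]; abel
      rw [this, h1, h2, sub_zero]
    have := h.short _ _ (by rw [abs_zero, abs_of_nonneg (by linarith)]; linarith) h3
    omega

/-- the number of points of the ball -/
lemma ball_sum (t : ℤ) (s : ℕ) :
    ∑ x ∈ Icc (-(s : ℤ)) s, (2 * (t - |x|) + 1) = (2 * s + 1) * (2 * t + 1) - 2 * s * (s + 1) := by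
  induction s with
  | zero => simp
  | succ s ih =>
    have hI : Icc (-((s + 1 : ℕ) : ℤ)) ((s + 1 : ℕ) : ℤ) =
        insert ((s : ℤ) + 1) (insert (-((s : ℤ) + 1)) (Icc (-(s : ℤ)) s)) := by
      ext x
      simp only [Finset.mem_insert, Finset.mem_Icc]
      push_cast
      omega
    rw [hI, Finset.sum_insert, Finset.sum_insert, ih, abs_neg,
      abs_of_nonneg (show (0 : ℤ) ≤ (s : ℤ) + 1 by positivity)]
    · push_cast; ring
    · rw [Finset.mem_Icc]; omega
    · rw [Finset.mem_insert, Finset.mem_Icc]; omega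

lemma ball_card (s : ℕ) :
    ((((Icc (-(s : ℤ)) s) ×ˢ (Icc (-(s : ℤ)) s)).filter
      fun p => |p.1| + |p.2| ≤ (s : ℤ)).card : ℤ) =
      2 * s ^ 2 + 2 * s + 1 := by
  rw [Finset.card_filter, Finset.sum_product]
  push_cast
  have : ∀ x ∈ Icc (-(s : ℤ)) s,
      (∑ y ∈ Icc (-(s : ℤ)) s, if |x| + |y| ≤ (s : ℤ) then (1 : ℤ) else 0) =
      2 * (s - |x|) + 1 := by
    intro x hx
    have hx' : |x| ≤ s := by
      rw [Finset.mem_Icc] at hx
      exact abs_le.2 hx
    rw [← Finset.sum_filter, Finset.sum_const, nsmul_eq_mul, mul_one]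
    have hF : (Icc (-(s : ℤ)) s).filter (fun y => |x| + |y| ≤ s) = Icc (-(s - |x|)) (s - |x|) := by
      ext y
      rw [Finset.mem_filter, Finset.mem_Icc, Finset.mem_Icc]
      have h0 := abs_nonneg x
      constructor
      · rintro ⟨_, h2⟩
        have := abs_le.1 (show |y| ≤ s - |x| by linarith)
        exact this
      · rintro ⟨h1, h2⟩
        have := abs_le.2 (show -(s - |x|) ≤ y ∧ y ≤ s - |x| from ⟨h1, h2⟩)
        exact ⟨⟨by linarith, by linarith⟩, by linarith⟩
    rw [hF, Int.card_Icc]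
    rw [Int.toNat_of_nonneg (by linarith)]
    ring
  rw [Finset.sum_congr rfl this, ball_sum]
  ring

lemma Pair2.card [Fintype G] {s : ℕ} (h : Pair2 a b (s : ℤ)) :
    Fintype.card G = 2 * s ^ 2 + 2 * s + 1 := by
  have hc := ball_card s
  have : (Finset.univ : Finset G) =
      (((Icc (-(s : ℤ)) s) ×ˢ (Icc (-(s : ℤ)) s)).filter
        fun p => |p.1| + |p.2| ≤ (s : ℤ)).image fun p => p.1 • a + p.2 • b := by
    ext g
    rw [Finset.mem_image]
    refine ⟨fun _ => ?_, fun _ => Finset.mem_univ g⟩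
    obtain ⟨x, y, hxy, hg⟩ := h.ex g
    refine ⟨(x, y), ?_, hg⟩
    rw [Finset.mem_filter, Finset.mem_product, Finset.mem_Icc, Finset.mem_Icc]
    have h1 := abs_nonneg x
    have h2 := abs_nonneg y
    exact ⟨⟨abs_le.1 (by linarith), abs_le.1 (by linarith)⟩, hxy⟩
  rw [← Finset.card_univ, this, Finset.card_image_of_injOn]
  · exact_mod_cast hc
  · rintro ⟨x, y⟩ hp ⟨x', y'⟩ hp' he
    rw [Finset.mem_coe, Finset.mem_filter] at hp hp'
    have := h.un x y x' y' hp.2 hp'.2 he
    rw [this.1, this.2]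

/-- a pair is, in a suitable cyclic coordinate, `{± (2 s + 1), 1}` -/
lemma Pair2.iso [Fintype G] {s : ℕ} (h : Pair2 a b (s : ℤ)) (hs : 1 ≤ s) :
    ∃ e : G ≃+ ZMod (2 * s ^ 2 + 2 * s + 1), e b = 1 ∧
      (e a = 2 * s + 1 ∨ -(e a) = 2 * s + 1) := by
  obtain ⟨ha, hN⟩ := h.gen (by exact_mod_cast hs)
  have hN' : zmultiplesHom G b ((2 * s ^ 2 + 2 * s + 1 : ℕ) : ℤ) = 0 := by
    rw [zmultiplesHom_apply]
    push_cast
    exact hN
  let f : ZMod (2 * s ^ 2 + 2 * s + 1) →+ G :=
    ZMod.lift (2 * s ^ 2 + 2 * s + 1) ⟨zmultiplesHom G b, hN'⟩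
  have hf : ∀ z : ℤ, f (z : ZMod (2 * s ^ 2 + 2 * s + 1)) = z • b := by
    intro z
    show ZMod.lift (2 * s ^ 2 + 2 * s + 1) ⟨zmultiplesHom G b, hN'⟩ _ = _
    rw [ZMod.lift_coe]
    rfl
  have hsurj : Function.Surjective f := by
    intro g
    obtain ⟨x, y, _, hg⟩ := h.ex g
    rcases ha with ha | ha
    · refine ⟨((x * (2 * s + 1) + y : ℤ) : ZMod _), ?_⟩
      rw [hf, ← hg, ha]
      module
    · refine ⟨((-x * (2 * s + 1) + y : ℤ) : ZMod _), ?_⟩
      rw [hf, ← hg, ha]
      module
  have hcard : Fintype.card (ZMod (2 * s ^ 2 + 2 * s + 1)) = Fintype.card G := by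
    rw [ZMod.card, h.card]
  have hbij : Function.Bijective f :=
    (Fintype.bijective_iff_surjective_and_card f).2 ⟨hsurj, hcard⟩
  refine ⟨(AddEquiv.ofBijective f hbij).symm, ?_, ?_⟩
  · rw [AddEquiv.symm_apply_eq]
    have := hf 1
    rw [Int.cast_one, one_smul] at this
    exact this.symm
  · rcases ha with ha | ha
    · left
      rw [AddEquiv.symm_apply_eq]
      have := hf (2 * s + 1)
      push_cast at this
      rw [ha]
      exact this.symm
    · right
      rw [← map_neg, AddEquiv.symm_apply_eq]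
      have := hf (2 * s + 1)
      push_cast at this
      rw [ha, neg_neg]
      exact this.symm

/-- Perfect `s`-spanning sets with two elements, `s ≥ 1`: there are an isomorphism `e` of the group
with `ℤ / (2 s² + 2 s + 1)` and signs which carry the set to `{1, 2 s + 1}`. -/
theorem size_two (G : Type) [AddCommGroup G] [Finite G] (A : Finset G) (s : ℕ) (hs : 1 ≤ s)
    (h : PerfectSpanning A s) (hA : A.card = 2) :
    ∃ e : G ≃+ ZMod (2 * s ^ 2 + 2 * s + 1), ∃ ε : G → ℤ, (∀ x, ε x = 1 ∨ ε x = -1) ∧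
      A.image (fun x => ε x • e x) = {1, 2 * (s : ZMod (2 * s ^ 2 + 2 * s + 1)) + 1} := by
  have := Fintype.ofFinite G
  obtain ⟨a, b, hab, rfl⟩ := Finset.card_eq_two.1 hA
  have ha : a ∈ ({a, b} : Finset G) := by simp
  have hb : b ∈ ({a, b} : Finset G) := by simp
  have hne : (⟨a, ha⟩ : ({a, b} : Finset G)) ≠ ⟨b, hb⟩ := by
    intro hc
    rw [Subtype.mk.injEq] at hc
    exact hab hc
  have hall : ∀ z : ({a, b} : Finset G), z = ⟨a, ha⟩ ∨ z = ⟨b, hb⟩ := by
    rintro ⟨z, hz⟩
    rw [Finset.mem_insert, Finset.mem_singleton] at hz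
    rcases hz with rfl | rfl
    · left; rfl
    · right; rfl
  have huniv : (Finset.univ : Finset ({a, b} : Finset G)) = {⟨a, ha⟩, ⟨b, hb⟩} := by
    ext z
    rw [Finset.mem_insert, Finset.mem_singleton]
    exact ⟨fun _ => hall z, fun _ => Finset.mem_univ z⟩
  have hsumabs : ∀ c : ({a, b} : Finset G) → ℤ, ∑ z, |c z| = |c ⟨a, ha⟩| + |c ⟨b, hb⟩| := by
    intro c
    rw [huniv, Finset.sum_pair hne]
  have hsumev : ∀ c : ({a, b} : Finset G) → ℤ,
      ∑ z, c z • (z : G) = c ⟨a, ha⟩ • a + c ⟨b, hb⟩ • b := by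
    intro c
    rw [huniv, Finset.sum_pair hne]
  have hP : Pair2 a b (s : ℤ) := by
    constructor
    · intro g
      obtain ⟨c, ⟨h1, h2⟩, _⟩ := h g
      rw [hsumabs] at h1
      rw [hsumev] at h2
      exact ⟨_, _, h1, h2⟩
    · intro x y x' y' h1 h2 he
      obtain ⟨c, _, hc⟩ := h (x' • a + y' • b)
      let u : ℤ → ℤ → ({a, b} : Finset G) → ℤ := fun p q z => if (z : G) = a then p else q
      have hua : ∀ p q, u p q ⟨a, ha⟩ = p := fun p q => by simp [u]
      have hub : ∀ p q, u p q ⟨b, hb⟩ = q := fun p q => by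
        show (if (b : G) = a then p else q) = q
        rw [if_neg (Ne.symm hab)]
      have e1 := hc (u x y) ⟨by rw [hsumabs, hua, hub]; exact h1, by
        rw [hsumev, hua, hub]; exact he⟩
      have e2 := hc (u x' y') ⟨by rw [hsumabs, hua, hub]; exact h2, by
        rw [hsumev, hua, hub]⟩
      have e3 := e1.trans e2.symm
      constructor
      · have := congrFun e3 ⟨a, ha⟩
        rwa [hua, hua] at this
      · have := congrFun e3 ⟨b, hb⟩
        rwa [hub, hub] at this
  obtain ⟨e, he1, he2⟩ := hP.iso hs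
  rcases he2 with he2 | he2
  · refine ⟨e, fun _ => 1, fun _ => Or.inl rfl, ?_⟩
    rw [Finset.image_insert, Finset.image_singleton, one_smul, one_smul, he1, he2,
      Finset.pair_comm]
  · refine ⟨e, fun x => if x = a then -1 else 1, fun x => ?_, ?_⟩
    · by_cases hx : x = a
      · right; simp [hx]
      · left; simp [hx]
    · rw [Finset.image_insert, Finset.image_singleton]
      have e1 : (if a = a then (-1 : ℤ) else 1) • e a = 2 * s + 1 := by
        rw [if_pos rfl, neg_smul, one_smul, he2]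
      have e2 : (if b = a then (-1 : ℤ) else 1) • e b = 1 := by
        rw [if_neg (Ne.symm hab), one_smul, he1]
      rw [e1, e2, Finset.pair_comm]

end

end Pool.Agent.H21.GW
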